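import Pool.Agent.H15.IX.TD

/-!
# Hilbert functions of homogeneous ideals: rows HCS, EXS, PER, NIN, RED, IT
-/

set_option autoImplicit false

open Finset Pool.Agent.H15.IX
open MvPolynomial

namespace Pool.Agent.H50.IX

universe u

section basic
variable {V : Type} [Fintype V] {r : ℕ} {K : Type u} [Field K] {deg : V → Fin r → ℤ}

/-- The components of a product with a homogeneous polynomial. -/
theorem comp_mul {f g : MvPolynomial V K} {δ : Fin r → ℤ} (hf : IsWeightedHomogeneous deg f δ)
    (A : Fin r → ℤ) : weightedHomogeneousComponent deg A (f * g) =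
      f * weightedHomogeneousComponent deg (A - δ) g := by
  classical
  ext d
  rw [coeff_weightedHomogeneousComponent, coeff_mul, coeff_mul]
  split_ifs with h
  · apply Finset.sum_congr rfl
    rintro ⟨x, y⟩ hxy
    rw [HasAntidiagonal.mem_antidiagonal] at hxy
    rw [coeff_weightedHomogeneousComponent]
    by_cases hx : coeff x f = 0
    · rw [hx, zero_mul, zero_mul]
    · have h1 := hf hx
      rw [if_pos]
      have h2 : Finsupp.weight deg (x + y) = Finsupp.weight deg x + Finsupp.weight deg y :=
        map_add _ _ _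
      rw [hxy, h, h1] at h2
      rw [h2, add_sub_cancel_left]
  · symm
    apply Finset.sum_eq_zero
    rintro ⟨x, y⟩ hxy
    rw [HasAntidiagonal.mem_antidiagonal] at hxy
    rw [coeff_weightedHomogeneousComponent]
    by_cases hx : coeff x f = 0
    · rw [hx, zero_mul]
    · have h1 := hf hx
      rw [if_neg, mul_zero]
      intro h3
      apply h
      have h2 : Finsupp.weight deg (x + y) = Finsupp.weight deg x + Finsupp.weight deg y :=
        map_add _ _ _
      rw [hxy, h1, h3] at h2
      rw [h2]
      abel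

theorem mem_cln {I : Ideal (MvPolynomial V K)} {f g : MvPolynomial V K} :
    g ∈ cln I f ↔ f * g ∈ I := Iff.rfl

theorem le_cln (I : Ideal (MvPolynomial V K)) (f : MvPolynomial V K) : I ≤ cln I f :=
  fun _ hg => I.mul_mem_left f hg

theorem S_finite (hF : Fnt deg) (B : Fin r → ℤ) :
    FiniteDimensional K (weightedHomogeneousSubmodule K deg B) := by
  classical
  have hle : weightedHomogeneousSubmodule K deg B ≤ Submodule.span K
      ((fun d => (monomial d (1 : K) : MvPolynomial V K)) '' {d | Finsupp.weight deg d = B}) := by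
    intro p hp
    rw [p.as_sum]
    apply Submodule.sum_mem
    intro d hd
    have h1 : (monomial d (coeff d p) : MvPolynomial V K) = coeff d p • monomial d (1 : K) := by
      rw [smul_monomial, smul_eq_mul, mul_one]
    rw [h1]
    apply Submodule.smul_mem
    exact Submodule.subset_span ⟨d, hp (mem_support_iff.1 hd), rfl⟩
  haveI : FiniteDimensional K (Submodule.span K
      ((fun d => (monomial d (1 : K) : MvPolynomial V K)) '' {d | Finsupp.weight deg d = B})) :=
    FiniteDimensional.span_of_finite K ((hF B).image _)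
  exact Submodule.finiteDimensional_of_le hle

theorem hf_top (A : Fin r → ℤ) : hf deg (⊤ : Ideal (MvPolynomial V K)) A = 0 := by
  unfold hf
  rw [Submodule.restrictScalars_top, top_inf_eq, sub_self]

end basic

theorem pf_HCS : T_HCS.{u} := by
  intro V _ r K _ deg I f δ hI hf
  constructor
  · intro g hg A
    rw [mem_cln] at hg ⊢
    have h1 := hI _ hg (A + δ)
    rw [comp_mul hf, add_sub_cancel_right] at h1
    exact h1
  · intro g hg A
    obtain ⟨u, hu, v, hv, rfl⟩ := Submodule.mem_sup.1 hg
    obtain ⟨a, rfl⟩ := Ideal.mem_span_singleton'.1 hv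
    rw [map_add]
    apply Ideal.add_mem
    · exact Ideal.mem_sup_left (hI u hu A)
    · rw [mul_comm a f, comp_mul hf]
      exact Ideal.mem_sup_right (Ideal.mul_mem_right _ _ (Ideal.mem_span_singleton_self f))

theorem pf_EXS (hHCS : T_HCS.{u}) : T_EXS.{u} := by
  intro V _ r K _ deg I f δ hF hI hf A
  by_cases hf0 : f = 0
  · subst hf0
    have h1 : cln I (0 : MvPolynomial V K) = ⊤ := by
      rw [Ideal.eq_top_iff_one, mem_cln, zero_mul]
      exact I.zero_mem
    have h2 : I ⊔ Ideal.span {(0 : MvPolynomial V K)} = I := by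
      rw [Ideal.span_singleton_eq_bot.2 rfl, sup_bot_eq]
    rw [h1, h2, hf_top, zero_add]
  · set m : MvPolynomial V K →ₗ[K] MvPolynomial V K := LinearMap.mulLeft K f with hm
    have hinj : Function.Injective m := by
      intro a b hab
      exact mul_left_cancel₀ hf0 hab
    set T := weightedHomogeneousSubmodule K deg (A - δ) with hT
    set S := weightedHomogeneousSubmodule K deg A with hS
    set P := I.restrictScalars K ⊓ S with hP
    haveI hfS : FiniteDimensional K S := S_finite hF A
    haveI hfT : FiniteDimensional K T := S_finite hF (A - δ)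
    haveI hfP : FiniteDimensional K P := Submodule.finiteDimensional_of_le inf_le_right
    haveI hfM : FiniteDimensional K (T.map m) := inferInstance
    have hTS : T.map m ≤ S := by
      rintro _ ⟨g, hg, rfl⟩
      have h1 := hf.mul (show IsWeightedHomogeneous deg g (A - δ) from hg)
      rw [add_sub_cancel] at h1
      exact h1
    have e1 : (I ⊔ Ideal.span {f}).restrictScalars K ⊓ S = P ⊔ T.map m := by
      apply le_antisymm
      · intro h hh
        obtain ⟨hh1, hh2⟩ := Submodule.mem_inf.1 hh
        obtain ⟨u, hu, v, hv, huv⟩ := Submodule.mem_sup.1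
          (show h ∈ I ⊔ Ideal.span {f} from hh1)
        obtain ⟨a, rfl⟩ := Ideal.mem_span_singleton'.1 hv
        have h1 : weightedHomogeneousComponent deg A h = h :=
          IsWeightedHomogeneous.weightedHomogeneousComponent_same
            (show IsWeightedHomogeneous deg h A from hh2)
        have h2 : h = u + f * a := by rw [← huv, mul_comm a f]
        rw [h2, map_add, comp_mul hf] at h1
        rw [h2, ← h1]
        apply Submodule.add_mem_sup
        · refine Submodule.mem_inf.2 ⟨hI u hu A, ?_⟩
          exact weightedHomogeneousComponent_isWeightedHomogeneous A u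
        · refine ⟨weightedHomogeneousComponent deg (A - δ) a, ?_, rfl⟩
          exact weightedHomogeneousComponent_isWeightedHomogeneous (A - δ) a
      · apply sup_le
        · apply le_inf
          · intro h hh
            exact Ideal.mem_sup_left (Submodule.mem_inf.1 hh).1
          · exact inf_le_right
        · apply le_inf _ hTS
          rintro _ ⟨g, hg, rfl⟩
          exact Ideal.mem_sup_right (Ideal.mul_mem_right _ _ (Ideal.mem_span_singleton_self f))
    have e2 : P ⊓ T.map m = ((cln I f).restrictScalars K ⊓ T).map m := by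
      apply le_antisymm
      · rintro _ hh
        obtain ⟨hh1, ⟨g, hg, rfl⟩⟩ := Submodule.mem_inf.1 hh
        exact ⟨g, Submodule.mem_inf.2 ⟨(Submodule.mem_inf.1 hh1).1, hg⟩, rfl⟩
      · rintro _ ⟨g, hg, rfl⟩
        obtain ⟨hg1, hg2⟩ := Submodule.mem_inf.1 hg
        refine Submodule.mem_inf.2 ⟨Submodule.mem_inf.2 ⟨hg1, hTS ⟨g, hg2, rfl⟩⟩, ⟨g, hg2, rfl⟩⟩
    have d1 := Submodule.finrank_sup_add_finrank_inf_eq P (T.map m)
    have d2 : Module.finrank K (T.map m) = Module.finrank K T :=
      (Submodule.equivMapOfInjective m hinj T).finrank_eq.symm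
    have d3 : Module.finrank K (((cln I f).restrictScalars K ⊓ T).map m) =
        Module.finrank K ((cln I f).restrictScalars K ⊓ T : Submodule K (MvPolynomial V K)) :=
      (Submodule.equivMapOfInjective m hinj _).finrank_eq.symm
    rw [e2, d2, d3] at d1
    unfold Pool.Agent.H15.IX.hf
    rw [e1]
    have d4 : ((Module.finrank K (P ⊔ T.map m : Submodule K (MvPolynomial V K)) : ℕ) : ℤ) +
        Module.finrank K ((cln I f).restrictScalars K ⊓ T : Submodule K (MvPolynomial V K)) =
        Module.finrank K P + Module.finrank K T := by exact_mod_cast d1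
    linarith

section ev
variable {r q : ℕ} {L : (Fin r → ℤ) →+ (Fin q → ℤ)} {p : ℕ}

theorem Ev_zero : Ev p L (fun _ => 0) := ⟨0, fun _ _ => dvd_zero _⟩

theorem Ev_add {h h' : (Fin r → ℤ) → ℤ} (h1 : Ev p L h) (h2 : Ev p L h') :
    Ev p L (fun A => h A + h' A) := by
  obtain ⟨b, hb⟩ := h1
  obtain ⟨b', hb'⟩ := h2
  exact ⟨max b b', fun A hA => dvd_add (hb A fun i => (le_max_left _ _).trans (hA i))
    (hb' A fun i => (le_max_right _ _).trans (hA i))⟩

theorem Ev_neg {h : (Fin r → ℤ) → ℤ} (h1 : Ev p L h) : Ev p L (fun A => -h A) := by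
  obtain ⟨b, hb⟩ := h1
  exact ⟨b, fun A hA => (dvd_neg).2 (hb A hA)⟩

theorem Ev_shift {h : (Fin r → ℤ) → ℤ} (h1 : Ev p L h) (δ : Fin r → ℤ) :
    Ev p L (fun A => h (A - δ)) := by
  obtain ⟨b, hb⟩ := h1
  refine ⟨b + ∑ i, |L δ i|, fun A hA => hb _ fun i => ?_⟩
  rw [map_sub, Pi.sub_apply]
  have h2 := hA i
  have h3 : |L δ i| ≤ ∑ i, |L δ i| :=
    Finset.single_le_sum (f := fun i => |L δ i|) (fun i _ => abs_nonneg _) (Finset.mem_univ i)
  have h4 := le_abs_self (L δ i)
  linarith

theorem Ev_congr {h h' : (Fin r → ℤ) → ℤ} (h1 : Ev p L h) (h2 : ∀ A, h' A = h A) :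
    Ev p L h' := by
  have : h' = h := funext h2
  rw [this]
  exact h1

end ev

theorem pf_PER (hHCS : T_HCS.{u}) (hEXS : T_EXS.{u}) : T_PER.{u} := by
  intro V _ r q K _ deg L p P g δ hF hP hPp hI hg hgP
  have h1 : cln P g = P := by
    apply le_antisymm _ (le_cln P g)
    intro h hh
    exact (hPp.mem_or_mem (mem_cln.1 hh)).resolve_left hgP
  have h2 := hI (P ⊔ Ideal.span {g}) (hHCS V r K deg P g δ hP hg).2 (by
    apply lt_of_le_of_ne le_sup_left
    intro h
    apply hgP
    rw [h]
    exact Ideal.mem_sup_right (Ideal.mem_span_singleton_self g))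
  refine Ev_congr h2 fun A => ?_
  have h3 := hEXS V r K deg P g δ hF hP hg A
  rw [h1] at h3
  rw [h3]
  ring

theorem pf_NIN (hHCS : T_HCS.{u}) (hEXS : T_EXS.{u}) (hHPR : T_HPR.{u}) : T_NIN.{u} := by
  intro V _ r q K _ deg L p J hF hprime I
  induction I using WellFoundedGT.induction with
  | ind I ih =>
    intro hI hJI
    by_cases htop : I = ⊤
    · rw [htop]
      exact Ev_congr Ev_zero fun A => hf_top A
    by_cases hIp : I.IsPrime
    · exact hprime I hI hIp hJI fun I' hI' hlt => ih I' hlt hI' (hJI.trans hlt.le)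
    have h1 : ¬ ∀ (a b : MvPolynomial V K) (A B : Fin r → ℤ), IsWeightedHomogeneous deg a A →
        IsWeightedHomogeneous deg b B → a * b ∈ I → a ∈ I ∨ b ∈ I :=
      fun h => hIp (hHPR V r K deg I hI htop h)
    push Not at h1
    obtain ⟨a, b, A, B, ha, hb, hab, haI, hbI⟩ := h1
    have hc := (hHCS V r K deg I a A hI ha)
    have e1 := ih (cln I a) (by
      apply lt_of_le_of_ne (le_cln I a)
      intro h
      apply hbI
      rw [h]
      exact hab) hc.1 (hJI.trans (le_cln I a))
    have e2 := ih (I ⊔ Ideal.span {a}) (by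
      apply lt_of_le_of_ne le_sup_left
      intro h
      apply haI
      rw [h]
      exact Ideal.mem_sup_right (Ideal.mem_span_singleton_self a)) hc.2 (hJI.trans le_sup_left)
    exact Ev_congr (Ev_add (Ev_shift e1 A) e2) fun X => hEXS V r K deg I a A hF hI ha X

section op
variable {r q : ℕ} {L : (Fin r → ℤ) →+ (Fin q → ℤ)} {p : ℕ} {κ : Type} [DecidableEq κ]
  (M : κ → Fin r → ℤ)

/-- The alternating sum of the shifts. -/
def op (U : Finset κ) (h : (Fin r → ℤ) → ℤ) (A : Fin r → ℤ) : ℤ :=
  ∑ T ∈ U.powerset, (-1 : ℤ) ^ T.card * h (A - ∑ i ∈ T, M i)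

theorem op_add (U : Finset κ) (h h' : (Fin r → ℤ) → ℤ) (A : Fin r → ℤ) :
    op M U (fun X => h X + h' X) A = op M U h A + op M U h' A := by
  unfold op
  rw [← Finset.sum_add_distrib]
  exact Finset.sum_congr rfl fun T _ => by ring

theorem op_sub (U : Finset κ) (h h' : (Fin r → ℤ) → ℤ) (A : Fin r → ℤ) :
    op M U (fun X => h X - h' X) A = op M U h A - op M U h' A := by
  unfold op
  rw [← Finset.sum_sub_distrib]
  exact Finset.sum_congr rfl fun T _ => by ring

theorem op_shift (U : Finset κ) (h : (Fin r → ℤ) → ℤ) (δ A : Fin r → ℤ) :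
    op M U (fun X => h (X - δ)) A = op M U h (A - δ) := by
  unfold op
  refine Finset.sum_congr rfl fun T _ => ?_
  have h1 : A - ∑ i ∈ T, M i - δ = A - δ - ∑ i ∈ T, M i := by abel
  change (-1) ^ T.card * h (A - ∑ i ∈ T, M i - δ) = _
  rw [h1]

theorem op_insert (U : Finset κ) (i : κ) (hi : i ∉ U) (h : (Fin r → ℤ) → ℤ) (A : Fin r → ℤ) :
    op M (insert i U) h A = op M U h A - op M U h (A - M i) := by
  unfold op
  rw [Finset.sum_powerset_insert hi, sub_eq_add_neg, ← Finset.sum_neg_distrib]
  congr 1
  refine Finset.sum_congr rfl fun T hT => ?_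
  have hiT : i ∉ T := fun h => hi (Finset.mem_powerset.1 hT h)
  have e1 : A - (M i + ∑ i ∈ T, M i) = A - M i - ∑ i ∈ T, M i := by abel
  rw [Finset.card_insert_of_notMem hiT, Finset.sum_insert hiT, e1]
  ring

end op

/-- All ideals generated by homogeneous elements over a homogeneous ideal. -/
theorem red_aux (hHCS : T_HCS.{u}) (hEXS : T_EXS.{u}) {V : Type} [Fintype V] {r q : ℕ}
    {K : Type u} [Field K] {deg : V → Fin r → ℤ} {L : (Fin r → ℤ) →+ (Fin q → ℤ)} {p : ℕ}
    {κ : Type} [DecidableEq κ] {M : κ → Fin r → ℤ} (hF : Fnt deg) (U : Finset κ)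
    (I : Ideal (MvPolynomial V K)) (f : MvPolynomial V K) (hI : Hid deg I)
    (hU : ∀ I' : Ideal (MvPolynomial V K), Hid deg I' → I ≤ I' → f ∈ I' →
      Ev p L (op M U (hf deg I')))
    (G : Finset (MvPolynomial V K))
    (hG : ∀ g ∈ G, g ∈ cln I f ∧ ∃ δ, IsWeightedHomogeneous deg g δ) :
    Hid deg (I ⊔ Ideal.span (G : Set (MvPolynomial V K))) ∧
      Ev p L (op M U fun A => hf deg I A -
        hf deg (I ⊔ Ideal.span (G : Set (MvPolynomial V K))) A) := by
  classical
  induction G using Finset.induction_on with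
  | empty =>
    rw [Finset.coe_empty, Ideal.span_empty, sup_bot_eq]
    refine ⟨hI, Ev_congr Ev_zero fun A => ?_⟩
    unfold op
    apply Finset.sum_eq_zero
    intro T _
    change _ * (hf deg I _ - hf deg I _) = 0
    rw [sub_self, mul_zero]
  | insert g G hgG ih =>
    obtain ⟨ih1, ih2⟩ := ih fun g' hg' => hG g' (Finset.mem_insert_of_mem hg')
    obtain ⟨hgc, δ, hgδ⟩ := hG g (Finset.mem_insert_self g G)
    have e1 : I ⊔ Ideal.span ((insert g G : Finset (MvPolynomial V K)) : Set _) =
        (I ⊔ Ideal.span (G : Set (MvPolynomial V K))) ⊔ Ideal.span {g} := by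
      rw [Finset.coe_insert, Ideal.span_insert, sup_assoc]
      congr 1
      exact sup_comm _ _
    rw [e1]
    have hc := hHCS V r K deg _ g δ ih1 hgδ
    refine ⟨hc.2, ?_⟩
    have e2 := hU (cln (I ⊔ Ideal.span (G : Set (MvPolynomial V K))) g) hc.1
      (le_sup_left.trans (le_cln _ g)) (by
        rw [mem_cln, mul_comm]
        exact Ideal.mem_sup_left (mem_cln.1 hgc))
    refine Ev_congr (Ev_add ih2 (Ev_shift e2 δ)) fun A => ?_
    have e3 : (fun A => hf deg I A -
        hf deg (I ⊔ Ideal.span (G : Set (MvPolynomial V K)) ⊔ Ideal.span {g}) A) =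
        fun A => (hf deg I A - hf deg (I ⊔ Ideal.span (G : Set (MvPolynomial V K))) A) +
          hf deg (cln (I ⊔ Ideal.span (G : Set (MvPolynomial V K))) g) (A - δ) := by
      funext A
      have e4 := hEXS V r K deg (I ⊔ Ideal.span (G : Set (MvPolynomial V K))) g δ hF ih1 hgδ A
      rw [e4]
      ring
    rw [e3, op_add M U (fun A => hf deg I A -
      hf deg (I ⊔ Ideal.span (G : Set (MvPolynomial V K))) A), op_shift]

/-- A homogeneous ideal above `I` is generated over `I` by finitely many homogeneous elements. -/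
theorem gen_hom {V : Type} [Fintype V] {r : ℕ} {K : Type u} [Field K] {deg : V → Fin r → ℤ}
    (I C : Ideal (MvPolynomial V K)) (hIC : I ≤ C) (hC : Hid deg C) :
    ∃ G : Finset (MvPolynomial V K), (∀ g ∈ G, g ∈ C ∧ ∃ δ, IsWeightedHomogeneous deg g δ) ∧
      I ⊔ Ideal.span (G : Set (MvPolynomial V K)) = C := by
  classical
  obtain ⟨s, hs⟩ := (isNoetherianRing_iff_ideal_fg _).1
    (inferInstance : IsNoetherianRing (MvPolynomial V K)) C
  refine ⟨s.biUnion fun f => (f.support.image fun d => Finsupp.weight deg d).image fun A =>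
    weightedHomogeneousComponent deg A f, ?_, ?_⟩
  · intro g hg
    obtain ⟨f, hfs, hg⟩ := Finset.mem_biUnion.1 hg
    obtain ⟨A, hA, rfl⟩ := Finset.mem_image.1 hg
    refine ⟨hC f ?_ A, A, weightedHomogeneousComponent_isWeightedHomogeneous A f⟩
    rw [← hs]
    exact Ideal.subset_span hfs
  · apply le_antisymm
    · apply sup_le hIC
      rw [Ideal.span_le]
      intro g hg
      obtain ⟨f, hfs, hg⟩ := Finset.mem_biUnion.1 (Finset.mem_coe.1 hg)
      obtain ⟨A, hA, rfl⟩ := Finset.mem_image.1 hg
      apply hC f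
      rw [← hs]
      exact Ideal.subset_span hfs
    · rw [← hs, Ideal.span_le]
      intro f hfs
      apply Ideal.mem_sup_right
      have h1 : f = ∑ A ∈ f.support.image (fun d => Finsupp.weight deg d),
          weightedHomogeneousComponent deg A f := by
        ext d
        rw [coeff_sum]
        simp only [coeff_weightedHomogeneousComponent]
        by_cases hd : coeff d f = 0
        · rw [hd]
          symm
          apply Finset.sum_eq_zero
          intro A _
          split_ifs <;> rfl
        · rw [Finset.sum_eq_single (Finsupp.weight deg d)]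
          · rw [if_pos rfl]
          · intro A _ hA
            rw [if_neg hA.symm]
          · intro h
            exact absurd (Finset.mem_image.2 ⟨d, mem_support_iff.2 hd, rfl⟩) h
      rw [h1]
      apply Ideal.sum_mem
      intro A hA
      apply Ideal.subset_span
      exact Finset.mem_coe.2 (Finset.mem_biUnion.2 ⟨f, hfs, Finset.mem_image.2 ⟨A, hA, rfl⟩⟩)

theorem pf_RED (hHCS : T_HCS.{u}) (hEXS : T_EXS.{u}) : T_RED.{u} := by
  intro V _ r q K _ deg L p κ _ _ φ M hF hφ hI
  have key : ∀ U : Finset κ, ∀ I : Ideal (MvPolynomial V K), Hid deg I →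
      (∀ i, i ∉ U → φ i ∈ I) → Ev p L (op M U (hf deg I)) := by
    intro U
    induction U using Finset.induction_on with
    | empty =>
      intro I hI1 hI2
      refine Ev_congr (hI I hI1 fun i => hI2 i (Finset.notMem_empty i)) fun A => ?_
      unfold op
      rw [Finset.powerset_empty, Finset.sum_singleton, Finset.card_empty, pow_zero, one_mul,
        Finset.sum_empty, sub_zero]
    | insert i U hiU ih =>
      intro I hI1 hI2
      have hc := hHCS V r K deg I (φ i) (M i) hI1 (hφ i)
      have hU : ∀ I' : Ideal (MvPolynomial V K), Hid deg I' → I ≤ I' → φ i ∈ I' →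
          Ev p L (op M U (hf deg I')) := by
        intro I' h1 h2 h3
        apply ih I' h1
        intro l hl
        by_cases hli : l = i
        · rw [hli]
          exact h3
        · apply h2
          apply hI2
          rw [Finset.mem_insert]
          tauto
      obtain ⟨G, hG1, hG2⟩ := gen_hom I (cln I (φ i)) (le_cln I _) hc.1
      have hD := (red_aux hHCS hEXS (M := M) (p := p) (L := L) hF U I (φ i) hI1 hU G hG1).2
      rw [hG2] at hD
      have hE := hU (I ⊔ Ideal.span {φ i}) hc.2 le_sup_left
        (Ideal.mem_sup_right (Ideal.mem_span_singleton_self _))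
      refine Ev_congr (Ev_add hE (Ev_neg (Ev_shift hD (M i)))) fun A => ?_
      rw [op_insert M U i hiU]
      have e1 : op M U (hf deg I) A = op M U (hf deg (I ⊔ Ideal.span {φ i})) A +
          op M U (hf deg (cln I (φ i))) (A - M i) := by
        have e2 : hf deg I = fun A => hf deg (I ⊔ Ideal.span {φ i}) A +
            hf deg (cln I (φ i)) (A - M i) := by
          funext X
          rw [hEXS V r K deg I (φ i) (M i) hF hI1 (hφ i) X]
          ring
        have e3 := op_add M U (hf deg (I ⊔ Ideal.span {φ i}))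
          (fun A => hf deg (cln I (φ i)) (A - M i)) A
        rw [← e2, op_shift M U (hf deg (cln I (φ i)))] at e3
        exact e3
      rw [e1, op_sub M U (hf deg I) (hf deg (cln I (φ i)))]
      ring
  have h1 := key Finset.univ ⊥ (by
    intro f hf A
    rw [Ideal.mem_bot] at hf ⊢
    rw [hf, map_zero]) (fun i hi => absurd (Finset.mem_univ i) hi)
  refine Ev_congr h1 fun A => ?_
  unfold op
  rw [Finset.powerset_univ]

theorem pf_IT (hPRM : T_PRM.{u}) (hNIN : T_NIN.{u}) (hRED : T_RED.{u}) (hHF0 : T_HF0.{u}) :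
    T_IT.{u} := by
  intro k _ _ _ V κ _ _ _ r q nb deg L A₀ Bl p φ M hGr hp hφ hN
  have h1 := hRED V r q (LaurentSeries k) deg L p κ φ M hGr.1 hφ ?_
  · refine Ev_congr h1 fun A => ?_
    refine Finset.sum_congr rfl fun T _ => ?_
    rw [hHF0 V r (LaurentSeries k) deg hGr.1]
  · intro I hI hφI
    refine hNIN V r q (LaurentSeries k) deg L p (Ideal.span (Set.range φ)) hGr.1 ?_ I hI ?_
    · intro P hP hPp hJP hP2
      refine hPRM k V κ r q nb deg L A₀ Bl p φ M hGr hp hφ hN P hP hPp ?_ hP2
      intro i
      exact hJP (Ideal.subset_span ⟨i, rfl⟩)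
    · rw [Ideal.span_le]
      rintro _ ⟨i, rfl⟩
      exact hφI i

end Pool.Agent.H50.IX
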