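import Pool.Agent.H15.IX.TD

/-!
# Rows HFD, HPR, AR2, ELW
-/

set_option autoImplicit false

open Finset Pool.Agent.H15.IX
open MvPolynomial

namespace Pool.Agent.H50.IX

universe u

/-- Rank and nullity on a subspace. -/
theorem fr_map {K E F : Type*} [Field K] [AddCommGroup E] [Module K E] [AddCommGroup F]
    [Module K F] (m : E →ₗ[K] F) (T : Submodule K E) [FiniteDimensional K T] :
    Module.finrank K (T.map m) + Module.finrank K (LinearMap.ker m ⊓ T : Submodule K E) =
      Module.finrank K T := by
  have h1 := LinearMap.finrank_range_add_finrank_ker (m.domRestrict T)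
  have h2 : LinearMap.range (m.domRestrict T) = T.map m := LinearMap.range_domRestrict T m
  have h3 : LinearMap.ker (m.domRestrict T) =
      Submodule.comap T.subtype (LinearMap.ker m ⊓ T) := by
    ext x
    rw [LinearMap.mem_ker, Submodule.mem_comap, Submodule.mem_inf, LinearMap.mem_ker]
    exact ⟨fun h => ⟨h, x.2⟩, fun h => h.1⟩
  have h4 : Module.finrank K (Submodule.comap T.subtype (LinearMap.ker m ⊓ T)) =
      Module.finrank K (LinearMap.ker m ⊓ T : Submodule K E) :=
    (Submodule.comapSubtypeEquivOfLe (inf_le_right : LinearMap.ker m ⊓ T ≤ T)).finrank_eq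
  rw [h2, h3, h4] at h1
  exact h1

theorem S_fin {V : Type} [Fintype V] {r : ℕ} {K : Type u} [Field K] {deg : V → Fin r → ℤ}
    (hF : Fnt deg) (B : Fin r → ℤ) :
    FiniteDimensional K (weightedHomogeneousSubmodule K deg B) := by
  classical
  have hle : weightedHomogeneousSubmodule K deg B ≤ Submodule.span K
      ((fun d => (monomial d (1 : K) : MvPolynomial V K)) '' {d | Finsupp.weight deg d = B}) := by
    intro p hp
    rw [p.as_sum]
    apply Submodule.sum_mem
    intro d hd
    have h1 : (monomial d (coeff d p) : MvPolynomial V K) = coeff d p • monomial d (1 : K) := by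
      rw [smul_monomial, smul_eq_mul, mul_one]
    rw [h1]
    apply Submodule.smul_mem
    exact Submodule.subset_span ⟨d, hp (mem_support_iff.1 hd), rfl⟩
  haveI : FiniteDimensional K (Submodule.span K
      ((fun d => (monomial d (1 : K) : MvPolynomial V K)) '' {d | Finsupp.weight deg d = B})) :=
    FiniteDimensional.span_of_finite K ((hF B).image _)
  exact Submodule.finiteDimensional_of_le hle

theorem pf_HFD : T_HFD.{u} := by
  intro V _ r K _ F _ _ deg x hF A
  haveI := S_fin (K := K) hF A
  have h1 := fr_map (aeval x : MvPolynomial V K →ₐ[K] F).toLinearMap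
    (weightedHomogeneousSubmodule K deg A)
  have h2 : (Ix K x).restrictScalars K =
      LinearMap.ker (aeval x : MvPolynomial V K →ₐ[K] F).toLinearMap := by
    ext p
    rfl
  unfold hf Dg
  rw [h2]
  have h3 : (Module.finrank K ↥((weightedHomogeneousSubmodule K deg A).map
      (aeval x : MvPolynomial V K →ₐ[K] F).toLinearMap) : ℤ) +
      (Module.finrank K ↥(LinearMap.ker (aeval x : MvPolynomial V K →ₐ[K] F).toLinearMap ⊓
        weightedHomogeneousSubmodule K deg A) : ℤ) =
      Module.finrank K ↥(weightedHomogeneousSubmodule K deg A) := by exact_mod_cast h1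
  linarith

theorem pf_HPR : T_HPR.{u} := by
  intro V _ r K _ deg I hI htop hprime
  classical
  let deg' : V → Lex (Fin r → ℤ) := fun v => toLex (deg v)
  have hw : ∀ (f : MvPolynomial V K) (A : Lex (Fin r → ℤ)),
      IsWeightedHomogeneous deg' f A ↔ IsWeightedHomogeneous deg f (ofLex A) :=
    fun f A => Iff.rfl
  have hc : ∀ (f : MvPolynomial V K) (A : Lex (Fin r → ℤ)),
      weightedHomogeneousComponent deg' A f = weightedHomogeneousComponent deg (ofLex A) f := by
    intro f A
    ext d
    rw [coeff_weightedHomogeneousComponent, coeff_weightedHomogeneousComponent]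
    rfl
  letI dec : DecidableEq (Lex (Fin r → ℤ)) := LinearOrder.toDecidableEq
  letI : GradedAlgebra (weightedHomogeneousSubmodule K deg') := weightedGradedAlgebra K deg'
  have h1 : I.IsHomogeneous (weightedHomogeneousSubmodule K deg') := by
    intro A f hf
    have h2 : ((DirectSum.decompose (weightedHomogeneousSubmodule K deg') f A :
        weightedHomogeneousSubmodule K deg' A) : MvPolynomial V K) =
        weightedHomogeneousComponent deg' A f :=
      weightedDecomposition.decompose'_apply K deg' f A
    rw [h2, hc]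
    exact hI f hf _
  refine h1.isPrime_of_homogeneous_mem_or_mem htop ?_
  rintro a b ⟨A, ha⟩ ⟨B, hb⟩ hab
  exact hprime a b (ofLex A) (ofLex B) ha hb hab

theorem pf_AR2 : T_AR2 := by
  intro p n₀ r h c hp hD h1 h2
  have key : ∀ j, n₀ ≤ j → (p : ℤ) ∣ h j n₀ := by
    intro j hj
    -- the function of the second variable
    set f : ℕ → ℤ := fun y => h j (n₀ + y) with hf
    have hr : (fwdDiff 1)^[r] f = 0 := by
      funext y
      rw [fwdDiff_iter_eq_sum_shift]
      have h3 := (hD j (n₀ + y) hj (by omega)).2
      have h4 : ∑ i ∈ range (r + 1), ((-1 : ℤ) ^ (r - i) * r.choose i) • f (y + i • 1) =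
          (-1) ^ r * ∑ i ∈ range (r + 1), (-1 : ℤ) ^ i * (r.choose i : ℤ) * h j (n₀ + y + i) := by
        rw [Finset.mul_sum]
        refine Finset.sum_congr rfl fun i hi => ?_
        have hir : i ≤ r := by
          rw [Finset.mem_range] at hi
          omega
        have h5 : (-1 : ℤ) ^ (r - i) = (-1) ^ r * (-1) ^ i := by
          have h6 : (-1 : ℤ) ^ r = (-1) ^ (r - i) * (-1) ^ i := by
            rw [← pow_add, Nat.sub_add_cancel hir]
          rw [h6, mul_assoc, ← pow_add, ← two_mul, pow_mul, neg_one_sq, one_pow, mul_one]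
        rw [h5, smul_eq_mul, hf]
        simp only [smul_eq_mul, mul_one]
        rw [add_assoc]
        ring
      rw [h4, h3, mul_zero]
      rfl
    have hn : (fwdDiff 1)^[p ^ r] f = 0 := by
      have hrp : r ≤ p ^ r := (Nat.lt_pow_self hp.one_lt).le
      have h3 : p ^ r = (p ^ r - r) + r := by omega
      rw [h3, Function.iterate_add_apply, hr]
      have h4 : ∀ n : ℕ, (fwdDiff 1)^[n] (0 : ℕ → ℤ) = 0 := by
        intro n
        induction n with
        | zero => rfl
        | succ n ih =>
          rw [Function.iterate_succ_apply', ih]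
          funext y
          simp [fwdDiff]
      exact h4 _
    have hstep : ∀ y : ℕ, (p : ℤ) ∣ f (y + p ^ r) → (p : ℤ) ∣ f y := by
      intro y hy
      have h3 := congrFun hn y
      rw [fwdDiff_iter_eq_sum_shift, Finset.sum_range_succ, Nat.sub_self, Nat.choose_self] at h3
      rcases Nat.eq_zero_or_pos (p ^ r) with h0 | hpos
      · rw [h0, add_zero] at hy
        exact hy
      obtain ⟨N, hN⟩ : ∃ N, p ^ r = N + 1 := ⟨p ^ r - 1, by omega⟩
      have h5 : (p : ℤ) ∣ ∑ x ∈ range (p ^ r), ((-1 : ℤ) ^ (p ^ r - x) * (p ^ r).choose x) •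
          f (y + x • 1) - (-1) ^ (p ^ r) * f y := by
        rw [hN, Finset.sum_range_succ']
        have h6 : ((-1 : ℤ) ^ (N + 1 - 0) * (N + 1).choose 0) • f (y + 0 • 1) =
            (-1) ^ (N + 1) * f y := by
          rw [Nat.choose_zero_right, Nat.cast_one, mul_one, zero_smul, add_zero, smul_eq_mul,
            Nat.sub_zero]
        rw [h6, add_sub_cancel_right]
        apply Finset.dvd_sum
        intro i hi
        rw [Finset.mem_range] at hi
        have h7 : p ∣ (p ^ r).choose (i + 1) := hp.dvd_choose_pow (by omega) (by omega)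
        rw [hN] at h7
        rw [smul_eq_mul]
        apply Dvd.dvd.mul_right
        apply Dvd.dvd.mul_left
        exact_mod_cast h7
      have h6 : (p : ℤ) ∣ (-1) ^ (p ^ r) * f y := by
        have h7 : ((-1 : ℤ) ^ 0 * (1 : ℕ)) • f (y + p ^ r • 1) = f (y + p ^ r) := by
          rw [pow_zero, Nat.cast_one, mul_one, one_smul, smul_eq_mul, mul_one]
        rw [h7] at h3
        change _ = (0 : ℤ) at h3
        have h8 : (-1) ^ (p ^ r) * f y = -(∑ x ∈ range (p ^ r),
            ((-1 : ℤ) ^ (p ^ r - x) * (p ^ r).choose x) • f (y + x • 1) -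
              (-1) ^ (p ^ r) * f y) - f (y + p ^ r) := by
          linarith
        rw [h8]
        exact dvd_sub ((dvd_neg).2 h5) hy
      rcases neg_one_pow_eq_or ℤ (p ^ r) with h7 | h7
      · rw [h7, one_mul] at h6
        exact h6
      · rw [h7, neg_one_mul, dvd_neg] at h6
        exact h6
    obtain ⟨J₀, hJ⟩ := h1 j
    have hdesc : ∀ N : ℕ, (p : ℤ) ∣ f (N * p ^ r) → (p : ℤ) ∣ f 0 := by
      intro N
      induction N with
      | zero =>
        intro h
        rwa [zero_mul] at h
      | succ N ih =>
        intro h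
        apply ih
        apply hstep
        rwa [add_mul, one_mul] at h
    have h3 := hdesc J₀ (by
      apply hJ
      have h4 : 1 ≤ p ^ r := Nat.one_le_pow _ _ hp.pos
      nlinarith)
    simpa [hf] using h3
  obtain ⟨j₀, hj⟩ := h2 n₀
  refine ⟨max n₀ j₀, fun j hj' => ?_⟩
  have h3 := key j ((le_max_left _ _).trans hj')
  have h4 := hj j ((le_max_right _ _).trans hj')
  have h5 : c j = h j n₀ - (h j n₀ - c j) := by ring
  rw [h5]
  exact dvd_sub h3 h4

theorem pf_ELW (hEL : T_EL.{u}) : T_ELW.{u} := by
  intro k F _ _ _ _ _ E p hp hO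
  letI algA : Algebra (PowerSeries k) E :=
    ((algebraMap (LaurentSeries k) E).comp
      (algebraMap (PowerSeries k) (LaurentSeries k))).toAlgebra
  haveI tow : IsScalarTower (PowerSeries k) (LaurentSeries k) E :=
    IsScalarTower.of_algebraMap_eq fun x => rfl
  have hcoe : ∀ a : PowerSeries k, algebraMap (PowerSeries k) E a =
      algebraMap (LaurentSeries k) E (a : LaurentSeries k) := by
    intro a
    rw [IsScalarTower.algebraMap_apply (PowerSeries k) (LaurentSeries k) E]
    rfl
  have hX : algebraMap (PowerSeries k) E PowerSeries.X =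
      algebraMap (LaurentSeries k) E (HahnSeries.single 1 1) := by
    rw [hcoe]
    congr 1
    exact HahnSeries.ofPowerSeries_X
  obtain ⟨V, hV1, hV2, hV3⟩ := hEL (PowerSeries k) (LaurentSeries k) E PowerSeries.X p
    PowerSeries.X_irreducible hp (by
      intro O hOv hX'
      rw [hX] at hX' ⊢
      refine hO O ?_ hX'
      intro a
      rw [← hcoe]
      exact hOv a)
  have hinj : Function.Injective (E.val : E →ₐ[LaurentSeries k] F).toLinearMap :=
    E.val.injective
  refine ⟨V.map E.val.toLinearMap, hV1.map _, ?_, ?_, ?_⟩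
  · intro h
    apply hV2
    apply Submodule.map_injective_of_injective hinj
    rw [Submodule.map_bot]
    exact h
  · rintro _ ⟨y, _, rfl⟩
    exact y.2
  · intro T hT hTE
    have hTm : (T.comap E.val.toLinearMap).map E.val.toLinearMap = T := by
      rw [Submodule.map_comap_eq, inf_eq_right]
      intro y hy
      exact ⟨⟨y, hTE y hy⟩, rfl⟩
    have hTfg : (T.comap E.val.toLinearMap).FG := by
      apply Submodule.fg_of_fg_map_injective _ hinj
      rw [hTm]
      exact hT
    obtain ⟨J₀, hJ⟩ := hV3 _ hTfg
    refine ⟨J₀, fun J hJ' => ?_⟩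
    have h1 := hJ J hJ'
    have h2 : (V.map E.val.toLinearMap) ^ J * T =
        (V ^ J * T.comap E.val.toLinearMap).map E.val.toLinearMap := by
      rw [Submodule.map_mul, Submodule.map_pow, hTm]
    rw [h2]
    have h3 : Module.finrank (LaurentSeries k)
        ((V ^ J * T.comap E.val.toLinearMap).map E.val.toLinearMap) =
        Module.finrank (LaurentSeries k) ↥(V ^ J * T.comap E.val.toLinearMap) :=
      (Submodule.equivMapOfInjective E.val.toLinearMap hinj _).finrank_eq.symm
    rw [h3]
    exact h1

end Pool.Agent.H50.IX
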