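import Pool.Agent.H15.IX.TD
import Pool.Agent.H50.IX.HCS
import Pool.Agent.H50.IX.HPR

/-!
# Modules of rank one: row BET
-/

set_option autoImplicit false

open Finset Pool.Agent.H15.IX
open MvPolynomial

namespace Pool.Agent.H50.IX

universe u

section basic
variable {V : Type} [Fintype V] {r : ℕ} {K : Type u} [Field K] {F : Type u} [Field F]
  [Algebra K F] {deg : V → Fin r → ℤ} {x : V → F}

/-- Common denominators. -/
theorem com_den (hDZF : T_DZF.{u}) (s : Finset F) (hs : ∀ y ∈ s, y ∈ Ez K deg x) :
    ∃ (δ : Fin r → ℤ) (b : MvPolynomial V K) (G : Finset (MvPolynomial V K)),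
      IsWeightedHomogeneous deg b δ ∧ aeval x b ≠ 0 ∧
      (∀ g ∈ G, IsWeightedHomogeneous deg g δ) ∧
      (s : Set F) = (fun g => aeval x g / aeval x b) '' (G : Set (MvPolynomial V K)) := by
  classical
  induction s using Finset.induction_on with
  | empty =>
    refine ⟨0, 1, ∅, isWeightedHomogeneous_one K deg, ?_, ?_, ?_⟩
    · rw [map_one]
      exact one_ne_zero
    · intro g hg
      exact absurd hg (Finset.notMem_empty g)
    · simp
  | insert y s hys ih =>
    obtain ⟨δ, b, G, hb, hb0, hG, hsG⟩ := ih fun z hz => hs z (Finset.mem_insert_of_mem hz)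
    obtain ⟨A, a', b', ha', hb', hb'0, hy⟩ := hDZF V r K F deg x y
      (hs y (Finset.mem_insert_self y s))
    refine ⟨δ + A, b * b', insert (b * a') (G.image fun g => g * b'), hb.mul hb', ?_, ?_, ?_⟩
    · rw [map_mul]
      exact mul_ne_zero hb0 hb'0
    · intro g hg
      rcases Finset.mem_insert.1 hg with rfl | hg
      · exact hb.mul ha'
      · obtain ⟨g, hgG, rfl⟩ := Finset.mem_image.1 hg
        exact (hG g hgG).mul hb'
    · rw [Finset.coe_insert, Finset.coe_insert, Set.image_insert_eq, Finset.coe_image,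
        Set.image_image, hsG]
      congr 1
      · rw [hy, map_mul, map_mul]
        field_simp
      · apply Set.image_congr
        intro g _
        rw [map_mul, map_mul]
        field_simp

theorem Hid_span (hHCS : T_HCS.{u}) (I : Ideal (MvPolynomial V K)) (hI : Hid deg I)
    (δ : Fin r → ℤ) (G : Finset (MvPolynomial V K))
    (hG : ∀ g ∈ G, IsWeightedHomogeneous deg g δ) :
    Hid deg (I ⊔ Ideal.span (G : Set (MvPolynomial V K))) := by
  classical
  induction G using Finset.induction_on with
  | empty =>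
    rw [Finset.coe_empty, Ideal.span_empty, sup_bot_eq]
    exact hI
  | insert g G hgG ih =>
    have e1 : I ⊔ Ideal.span ((insert g G : Finset (MvPolynomial V K)) : Set _) =
        (I ⊔ Ideal.span (G : Set (MvPolynomial V K))) ⊔ Ideal.span {g} := by
      rw [Finset.coe_insert, Ideal.span_insert, sup_assoc]
      congr 1
      exact sup_comm _ _
    rw [e1]
    exact (hHCS V r K deg _ g δ (ih fun g' hg' => hG g' (Finset.mem_insert_of_mem hg'))
      (hG g (Finset.mem_insert_self g G))).2

/-- The values of the forms of the ideal generated by forms of the same degree. -/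
theorem map_span (hI : Hid deg (Ix K x)) (δ Y : Fin r → ℤ) (G : Finset (MvPolynomial V K))
    (hG : ∀ g ∈ G, IsWeightedHomogeneous deg g δ) :
    ((Ix K x ⊔ Ideal.span (G : Set (MvPolynomial V K))).restrictScalars K ⊓
      weightedHomogeneousSubmodule K deg (δ + Y)).map
        (aeval x : MvPolynomial V K →ₐ[K] F).toLinearMap =
      Dg K deg x Y * Submodule.span K ((aeval x : MvPolynomial V K →ₐ[K] F) '' G) := by
  apply le_antisymm
  · rintro _ ⟨f, hf, rfl⟩
    obtain ⟨hf1, hf2⟩ := Submodule.mem_inf.1 hf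
    have key : ∀ v ∈ Ideal.span (G : Set (MvPolynomial V K)), ∀ h : MvPolynomial V K,
        aeval x (weightedHomogeneousComponent deg (δ + Y) (h * v)) ∈
          Dg K deg x Y * Submodule.span K ((aeval x : MvPolynomial V K →ₐ[K] F) '' G) := by
      intro v hv
      induction hv using Submodule.span_induction with
      | mem g hg =>
        intro h
        have h1 := comp_mul (K := K) (g := h) (hG g hg) (δ + Y)
        rw [add_sub_cancel_left] at h1
        rw [mul_comm h g, h1, map_mul, mul_comm (aeval x g)]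
        apply Submodule.mul_mem_mul
        · exact ⟨_, weightedHomogeneousComponent_isWeightedHomogeneous Y h, rfl⟩
        · exact Submodule.subset_span ⟨g, hg, rfl⟩
      | zero =>
        intro h
        rw [mul_zero, map_zero, map_zero]
        exact Submodule.zero_mem _
      | add u v _ _ hu hv =>
        intro h
        rw [mul_add, map_add, map_add]
        exact Submodule.add_mem _ (hu h) (hv h)
      | smul a v _ hv =>
        intro h
        rw [smul_eq_mul, ← mul_assoc]
        exact hv (h * a)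
    obtain ⟨u, hu, v, hv, huv⟩ := Submodule.mem_sup.1
      (show f ∈ Ix K x ⊔ Ideal.span (G : Set (MvPolynomial V K)) from hf1)
    have h1 : weightedHomogeneousComponent deg (δ + Y) f = f :=
      IsWeightedHomogeneous.weightedHomogeneousComponent_same
        (show IsWeightedHomogeneous deg f (δ + Y) from hf2)
    change aeval x f ∈ _
    rw [← h1, ← huv, map_add, map_add]
    have h2 : aeval x (weightedHomogeneousComponent deg (δ + Y) u) = 0 :=
      hI u hu (δ + Y)
    rw [h2, zero_add]
    have h3 := key v hv 1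
    rwa [one_mul] at h3
  · rw [Submodule.mul_le]
    rintro _ ⟨h, hh, rfl⟩ n hn
    induction hn using Submodule.span_induction with
    | mem n hn =>
      obtain ⟨g, hg, rfl⟩ := hn
      refine ⟨g * h, Submodule.mem_inf.2 ⟨?_, ?_⟩, ?_⟩
      · exact Ideal.mem_sup_right (Ideal.mul_mem_right _ _ (Ideal.subset_span hg))
      · exact (hG g hg).mul (show IsWeightedHomogeneous deg h Y from hh)
      · change aeval x (g * h) = aeval x h * aeval x g
        rw [map_mul, mul_comm]
    | zero =>
      rw [mul_zero]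
      exact Submodule.zero_mem _
    | add u v _ _ hu hv =>
      rw [mul_add]
      exact Submodule.add_mem _ hu hv
    | smul a v _ hv =>
      rw [mul_smul_comm]
      exact Submodule.smul_mem _ _ hv

theorem Dg_mono_le {B : Fin r → ℤ} {T : Submodule K F}
    (h : ∀ s : V →₀ ℕ, Finsupp.weight deg s = B →
      (aeval x : MvPolynomial V K →ₐ[K] F) (monomial s 1) ∈ T) : Dg K deg x B ≤ T := by
  rintro _ ⟨p, hp, rfl⟩
  change aeval x p ∈ T
  rw [p.as_sum, map_sum]
  apply Submodule.sum_mem
  intro d hd
  have h1 : (monomial d (coeff d p) : MvPolynomial V K) = coeff d p • monomial d (1 : K) := by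
    rw [smul_monomial, smul_eq_mul, mul_one]
  rw [h1, map_smul]
  exact Submodule.smul_mem _ _ (h d (hp (mem_support_iff.1 hd)))

theorem mem_Dg {B : Fin r → ℤ} {s : V →₀ ℕ} (h : Finsupp.weight deg s = B) :
    (aeval x : MvPolynomial V K →ₐ[K] F) (monomial s 1) ∈ Dg K deg x B := by
  refine ⟨monomial s 1, ?_, rfl⟩
  exact isWeightedHomogeneous_monomial deg s 1 h

theorem Dg_pow {A₀ : Fin r → ℤ}
    (h4 : ∀ j : ℕ, 1 ≤ j → ∀ s : V →₀ ℕ, Finsupp.weight deg s = (j + 1) • A₀ →
      ∃ s' : V →₀ ℕ, s' ≤ s ∧ Finsupp.weight deg s' = A₀) (j : ℕ) :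
    Dg K deg x ((j + 1) • A₀) = Dg K deg x A₀ ^ (j + 1) := by
  induction j with
  | zero => rw [zero_add, one_smul, pow_one]
  | succ j ih =>
    rw [pow_succ, ← ih]
    apply le_antisymm
    · apply Dg_mono_le
      intro s hs
      obtain ⟨s', hs', hw⟩ := h4 (j + 1) (by omega) s hs
      have h1 : s = (s - s') + s' := (tsub_add_cancel_of_le hs').symm
      have h2 : Finsupp.weight deg (s - s') = (j + 1) • A₀ := by
        have h3 : Finsupp.weight deg s = Finsupp.weight deg (s - s') +
            Finsupp.weight deg s' := by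
          rw [← map_add, ← h1]
        rw [hs, hw, add_smul (j + 1) 1, one_smul] at h3
        exact (add_right_cancel h3).symm
      have h3 : (monomial s (1 : K) : MvPolynomial V K) =
          monomial (s - s') 1 * monomial s' 1 := by
        rw [monomial_mul, ← h1, one_mul]
      rw [h3, map_mul]
      exact Submodule.mul_mem_mul (mem_Dg h2) (mem_Dg hw)
    · rw [Submodule.mul_le]
      rintro _ ⟨a, ha, rfl⟩ _ ⟨b, hb, rfl⟩
      refine ⟨a * b, ?_, ?_⟩
      · have h1 := (show IsWeightedHomogeneous deg a ((j + 1) • A₀) from ha).mul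
          (show IsWeightedHomogeneous deg b A₀ from hb)
        have h2 : (j + 1 + 1) • A₀ = (j + 1) • A₀ + A₀ := by
          rw [add_smul (j + 1) 1, one_smul]
        rw [h2]
        exact h1
      · exact map_mul (aeval x : MvPolynomial V K →ₐ[K] F) a b

theorem span_mul_map (e : F) (Q : Submodule K F) :
    Submodule.span K {e} * Q = Q.map (LinearMap.mulLeft K e) := by
  apply le_antisymm
  · rw [Submodule.mul_le]
    intro m hm n hn
    obtain ⟨c, rfl⟩ := Submodule.mem_span_singleton.1 hm
    refine ⟨c • n, Q.smul_mem c hn, ?_⟩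
    rw [LinearMap.mulLeft_apply, mul_smul_comm, smul_mul_assoc]
  · rintro _ ⟨n, hn, rfl⟩
    exact Submodule.mul_mem_mul (Submodule.mem_span_singleton_self e) hn

theorem finrank_span_mul {e : F} (he : e ≠ 0) (Q : Submodule K F) :
    Module.finrank K ↥(Submodule.span K {e} * Q) = Module.finrank K Q := by
  rw [span_mul_map]
  exact (Submodule.equivMapOfInjective (LinearMap.mulLeft K e)
    (fun a b h => mul_left_cancel₀ he h) Q).finrank_eq.symm

end basic

theorem pf_BET (hDZF : T_DZF.{u}) (hPER : T_PER.{u}) (hHCS : T_HCS.{u}) : T_BET.{u} := by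
  intro V _ r q nb K _ F _ _ deg L A₀ Bl p x w W hGr hI hIev hw hw0 hWfg hW0 hWE
  obtain ⟨hF, hL, -, h4, -⟩ := hGr
  obtain ⟨s, hs⟩ := hWfg
  obtain ⟨δ, b, G, hb, hb0, hG, hsG⟩ := com_den hDZF s (fun y hy => hWE y (by
    rw [← hs]
    exact Submodule.subset_span hy))
  have hW : W = Submodule.span K {(aeval x b : F)⁻¹} *
      Submodule.span K ((aeval x : MvPolynomial V K →ₐ[K] F) '' G) := by
    rw [Submodule.span_mul_span, Set.singleton_mul, Set.image_image, ← hs, hsG]
    congr 1
    apply Set.image_congr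
    intro g _
    rw [div_eq_mul_inv, mul_comm]
  have hp : (Ix K x).IsPrime := RingHom.ker_isPrime _
  have hbI : b ∉ Ix K x := fun h => hb0 h
  have hlt : Ix K x < Ix K x ⊔ Ideal.span (G : Set (MvPolynomial V K)) := by
    apply lt_of_le_of_ne le_sup_left
    intro h
    apply hW0
    rw [← hs, Submodule.span_eq_bot]
    intro y hy
    rw [hsG] at hy
    obtain ⟨g, hg, rfl⟩ := hy
    have h1 : g ∈ Ix K x := by
      rw [h]
      exact Ideal.mem_sup_right (Ideal.subset_span hg)
    have h2 : aeval x g = 0 := h1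
    change aeval x g / aeval x b = 0
    rw [h2, zero_div]
  have hHa := Hid_span hHCS (Ix K x) hI δ G hG
  obtain ⟨b1, hb1⟩ := hIev _ hHa hlt
  obtain ⟨b2, hb2⟩ := hPER V r q K deg L p (Ix K x) b δ hF hI hp hIev hb hbI
  refine ⟨(∑ i, |L δ i| + |b1| + |b2|).toNat + 1, fun j hj => ?_⟩
  obtain ⟨j, rfl⟩ : ∃ j', j = j' + 1 := ⟨j - 1, by omega⟩
  have hdeep : ∀ i, |b1| + |b2| ≤ L (δ + (j + 1) • A₀) i := by
    intro i
    rw [map_add, map_nsmul, Pi.add_apply, Pi.smul_apply, nsmul_eq_mul]
    have h1 : |L δ i| ≤ ∑ i, |L δ i| :=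
      Finset.single_le_sum (f := fun i => |L δ i|) (fun i _ => abs_nonneg _) (Finset.mem_univ i)
    have h2 := neg_abs_le (L δ i)
    have h3 := hL i
    have h5 : (∑ i, |L δ i| + |b1| + |b2|) ≤ (j : ℤ) := by
      have h6 : (∑ i, |L δ i| + |b1| + |b2|).toNat ≤ j := by omega
      have h7 := Int.self_le_toNat (∑ i, |L δ i| + |b1| + |b2|)
      have h8 : ((∑ i, |L δ i| + |b1| + |b2|).toNat : ℤ) ≤ j := by exact_mod_cast h6
      linarith
    have h6 : (((j + 1 : ℕ) : ℤ)) * 1 ≤ ((j + 1 : ℕ) : ℤ) * L A₀ i :=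
      mul_le_mul_of_nonneg_left (by linarith) (by positivity)
    push_cast at h6 ⊢
    linarith
  have e1 := hb1 (δ + (j + 1) • A₀) fun i => by
    have := hdeep i
    have h1 := le_abs_self b1
    have h2 := abs_nonneg b2
    linarith
  have e2 := hb2 (δ + (j + 1) • A₀) fun i => by
    have := hdeep i
    have h1 := le_abs_self b2
    have h2 := abs_nonneg b1
    linarith
  change (p : ℤ) ∣ hf deg (Ix K x) (δ + (j + 1) • A₀) -
    hf deg (Ix K x) (δ + (j + 1) • A₀ - δ) at e2
  rw [add_sub_cancel_left] at e2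
  -- the dimension
  have d1 : Module.finrank K ↥((Submodule.span K {w⁻¹} * Dg K deg x A₀) ^ (j + 1) * W) =
      Module.finrank K ↥(Dg K deg x ((j + 1) • A₀) *
        Submodule.span K ((aeval x : MvPolynomial V K →ₐ[K] F) '' G)) := by
    have h1 : (Submodule.span K {w⁻¹} * Dg K deg x A₀) ^ (j + 1) * W =
        Submodule.span K {w⁻¹ ^ (j + 1) * (aeval x b : F)⁻¹} *
          (Dg K deg x ((j + 1) • A₀) *
            Submodule.span K ((aeval x : MvPolynomial V K →ₐ[K] F) '' G)) := by
      have h2 : Submodule.span K {w⁻¹ ^ (j + 1) * (aeval x b : F)⁻¹} =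
          Submodule.span K {w⁻¹} ^ (j + 1) * Submodule.span K {(aeval x b : F)⁻¹} := by
        rw [Submodule.span_pow, Set.singleton_pow, Submodule.span_mul_span,
          Set.singleton_mul_singleton]
      rw [h2, Dg_pow h4 j, hW, mul_pow]
      ring
    rw [h1, finrank_span_mul]
    exact mul_ne_zero (pow_ne_zero _ (inv_ne_zero hw0)) (inv_ne_zero hb0)
  rw [d1, ← map_span hI δ ((j + 1) • A₀) G hG]
  haveI := S_fin (K := K) hF (δ + (j + 1) • A₀)
  haveI : FiniteDimensional K ↥((Ix K x ⊔ Ideal.span (G : Set (MvPolynomial V K))).restrictScalars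
      K ⊓ weightedHomogeneousSubmodule K deg (δ + (j + 1) • A₀)) :=
    Submodule.finiteDimensional_of_le inf_le_right
  have d2 := fr_map (aeval x : MvPolynomial V K →ₐ[K] F).toLinearMap
    ((Ix K x ⊔ Ideal.span (G : Set (MvPolynomial V K))).restrictScalars K ⊓
      weightedHomogeneousSubmodule K deg (δ + (j + 1) • A₀))
  have d3 : LinearMap.ker (aeval x : MvPolynomial V K →ₐ[K] F).toLinearMap ⊓
      ((Ix K x ⊔ Ideal.span (G : Set (MvPolynomial V K))).restrictScalars K ⊓
      weightedHomogeneousSubmodule K deg (δ + (j + 1) • A₀)) =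
      (Ix K x).restrictScalars K ⊓ weightedHomogeneousSubmodule K deg (δ + (j + 1) • A₀) := by
    ext f
    constructor
    · intro hf
      exact Submodule.mem_inf.2 ⟨(Submodule.mem_inf.1 hf).1,
        (Submodule.mem_inf.1 (Submodule.mem_inf.1 hf).2).2⟩
    · intro hf
      obtain ⟨h1, h2⟩ := Submodule.mem_inf.1 hf
      exact Submodule.mem_inf.2 ⟨h1, Submodule.mem_inf.2 ⟨Ideal.mem_sup_left h1, h2⟩⟩
  rw [d3] at d2
  have d4 : (Module.finrank K ↥(((Ix K x ⊔
      Ideal.span (G : Set (MvPolynomial V K))).restrictScalars K ⊓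
      weightedHomogeneousSubmodule K deg (δ + (j + 1) • A₀)).map
        (aeval x : MvPolynomial V K →ₐ[K] F).toLinearMap) : ℤ) =
      hf deg (Ix K x) (δ + (j + 1) • A₀) -
        hf deg (Ix K x ⊔ Ideal.span (G : Set (MvPolynomial V K))) (δ + (j + 1) • A₀) := by
    unfold hf
    have d5 : (Module.finrank K ↥(((Ix K x ⊔
      Ideal.span (G : Set (MvPolynomial V K))).restrictScalars K ⊓
      weightedHomogeneousSubmodule K deg (δ + (j + 1) • A₀)).map
        (aeval x : MvPolynomial V K →ₐ[K] F).toLinearMap) : ℤ) +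
        Module.finrank K ((Ix K x).restrictScalars K ⊓
          weightedHomogeneousSubmodule K deg (δ + (j + 1) • A₀) :
            Submodule K (MvPolynomial V K)) =
        Module.finrank K ((Ix K x ⊔ Ideal.span (G : Set (MvPolynomial V K))).restrictScalars K ⊓
          weightedHomogeneousSubmodule K deg (δ + (j + 1) • A₀) :
            Submodule K (MvPolynomial V K)) := by exact_mod_cast d2
    linarith
  rw [d4]
  have h9 : hf deg (Ix K x) (δ + (j + 1) • A₀) -
        hf deg (Ix K x ⊔ Ideal.span (G : Set (MvPolynomial V K))) (δ + (j + 1) • A₀) -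
        hf deg (Ix K x) ((j + 1) • A₀) =
      (hf deg (Ix K x) (δ + (j + 1) • A₀) - hf deg (Ix K x) ((j + 1) • A₀)) -
        hf deg (Ix K x ⊔ Ideal.span (G : Set (MvPolynomial V K))) (δ + (j + 1) • A₀) := by ring
  rw [h9]
  exact dvd_sub e2 e1

end Pool.Agent.H50.IX
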