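import Pool.Agent.H15.IX.TF

/-!
# Curves and R-equivalence: rows LNK, COF, COR, CUR
-/

set_option autoImplicit false

open Finset Pool.Agent.H15.IX
open MvPolynomial Pool.Agent.H13.RE Pool.Agent.H17.IQ

namespace Pool.Agent.H50.IX

universe u

section basic
variable {k : Type u} [Field k] {N : ℕ}

/-- The sum of the exponents. -/
theorem hom_sum {F : MvPolynomial (Fin N) k} {d : ℕ} (hF : F.IsHomogeneous d)
    {m : Fin N →₀ ℕ} (hm : m ∈ F.support) : ∑ i, m i = d := by
  have h2 := hF (mem_support_iff.mp hm)
  rw [Finsupp.weight_apply, Finsupp.sum_fintype _ _ (fun i => by simp)] at h2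
  simpa using h2

/-- Homogeneous polynomials at multiples. -/
theorem aeval_mul_hom {A : Type u} [CommRing A] [Algebra k A] {F : MvPolynomial (Fin N) k}
    {d : ℕ} (hF : F.IsHomogeneous d) (u : A) (y : Fin N → A) :
    aeval (fun i => u * y i) F = u ^ d * aeval y F := by
  rw [aeval_def, aeval_def, eval₂_eq', eval₂_eq', Finset.mul_sum]
  apply Finset.sum_congr rfl
  intro m hm
  have h1 : ∏ i, (u * y i) ^ m i = u ^ d * ∏ i, y i ^ m i := by
    rw [Finset.prod_congr rfl fun i _ => mul_pow u (y i) (m i), Finset.prod_mul_distrib,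
      Finset.prod_pow_eq_pow_sum, hom_sum hF hm]
  rw [h1]
  ring

theorem aeval_eq_eval (x : Fin N → k) (F : MvPolynomial (Fin N) k) :
    aeval x F = eval x F := by
  rw [aeval_def]
  rfl

end basic

theorem pf_LNK : T_LNK.{u} := by
  intro k _ N s D d F γ hF hγ h0 hD
  -- the function field
  set τ : FractionRing (Polynomial k) := algebraMap (Polynomial k) _ Polynomial.X /
    algebraMap (Polynomial k) _ (1 - Polynomial.X) with hτ
  have h1X : algebraMap (Polynomial k) (FractionRing (Polynomial k)) (1 - Polynomial.X) ≠ 0 := by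
    intro h
    have h1 : (1 - Polynomial.X : Polynomial k) = 0 := by
      apply IsFractionRing.injective (Polynomial k) (FractionRing (Polynomial k))
      rw [h, map_zero]
    have h2 := congrArg (Polynomial.eval 0) h1
    simp at h2
  set c : Fin N → Polynomial k := fun v => ∑ i ∈ range (D + 1),
    Polynomial.C (γ i v) * Polynomial.X ^ i * (1 - Polynomial.X) ^ (D - i) with hc
  have hcv : ∀ v, algebraMap (Polynomial k) (FractionRing (Polynomial k)) (c v) =
      algebraMap (Polynomial k) (FractionRing (Polynomial k)) (1 - Polynomial.X) ^ D *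
        Polynomial.aeval τ (∑ i ∈ range (D + 1), Polynomial.monomial i (γ i v)) := by
    intro v
    rw [hc, map_sum, map_sum, Finset.mul_sum]
    refine Finset.sum_congr rfl fun i hi => ?_
    have hiD : i ≤ D := by
      rw [Finset.mem_range] at hi
      omega
    have e1 : algebraMap (Polynomial k) (FractionRing (Polynomial k)) (1 - Polynomial.X) ^ D =
        algebraMap (Polynomial k) (FractionRing (Polynomial k)) (1 - Polynomial.X) ^ (D - i) *
        algebraMap (Polynomial k) (FractionRing (Polynomial k)) (1 - Polynomial.X) ^ i := by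
      rw [← pow_add, Nat.sub_add_cancel hiD]
    have e2 : algebraMap (Polynomial k) (FractionRing (Polynomial k)) (1 - Polynomial.X) ^ i *
        τ ^ i = algebraMap (Polynomial k) (FractionRing (Polynomial k)) Polynomial.X ^ i := by
      rw [← mul_pow, hτ, mul_div_cancel₀ _ h1X]
    have e3 : algebraMap (Polynomial k) (FractionRing (Polynomial k)) (Polynomial.C (γ i v)) =
        algebraMap k (FractionRing (Polynomial k)) (γ i v) := by
      rw [IsScalarTower.algebraMap_apply k (Polynomial k) (FractionRing (Polynomial k))]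
      rfl
    rw [Polynomial.aeval_monomial, map_mul, map_mul, map_pow, map_pow, e1, e3, ← e2]
    ring
  have hcF : ∀ l, aeval c (F l) = 0 := by
    intro l
    apply IsFractionRing.injective (Polynomial k) (FractionRing (Polynomial k))
    rw [map_zero]
    have e1 : algebraMap (Polynomial k) (FractionRing (Polynomial k)) (aeval c (F l)) =
        aeval (fun v => algebraMap (Polynomial k) (FractionRing (Polynomial k)) (c v)) (F l) := by
      have := congrArg (fun g => g (F l)) (MvPolynomial.comp_aeval c
        (IsScalarTower.toAlgHom k (Polynomial k) (FractionRing (Polynomial k))))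
      exact this
    rw [e1, funext hcv, aeval_mul_hom (hF l)]
    have e2 : aeval (fun v => Polynomial.aeval τ
        (∑ i ∈ range (D + 1), Polynomial.monomial i (γ i v))) (F l) =
        Polynomial.aeval τ (aeval (fun v => ∑ i ∈ range (D + 1),
          Polynomial.monomial i (γ i v) : Fin N → Polynomial k) (F l)) := by
      have := congrArg (fun g => g (F l)) (MvPolynomial.comp_aeval
        (fun v => ∑ i ∈ range (D + 1), Polynomial.monomial i (γ i v) : Fin N → Polynomial k)
        (Polynomial.aeval τ : Polynomial k →ₐ[k] FractionRing (Polynomial k)))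
      exact this.symm
    rw [e2, hγ l, map_zero, mul_zero]
  have hc0 : (fun v => (c v).eval 0) = γ 0 := by
    funext v
    rw [hc]
    simp only [Polynomial.eval_finset_sum, Polynomial.eval_mul, Polynomial.eval_C,
      Polynomial.eval_pow, Polynomial.eval_X, Polynomial.eval_sub, Polynomial.eval_one, sub_zero,
      one_pow, mul_one]
    rw [Finset.sum_eq_single 0]
    · rw [pow_zero, mul_one]
    · intro i _ hi
      rw [zero_pow hi, mul_zero]
    · intro h
      exact absurd (Finset.mem_range.2 (Nat.succ_pos D)) h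
  have hc1 : (fun v => (c v).eval 1) = γ D := by
    funext v
    rw [hc]
    simp only [Polynomial.eval_finset_sum, Polynomial.eval_mul, Polynomial.eval_C,
      Polynomial.eval_pow, Polynomial.eval_X, Polynomial.eval_sub, Polynomial.eval_one, sub_self,
      one_pow, mul_one]
    rw [Finset.sum_eq_single D]
    · rw [Nat.sub_self, pow_zero, mul_one]
    · intro i hi hiD
      rw [Finset.mem_range] at hi
      rw [zero_pow (by omega), mul_zero]
    · intro h
      exact absurd (Finset.mem_range.2 (Nat.lt_succ_self D)) h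
  have hev : ∀ (t : k) l, eval (fun v => (c v).eval t) (F l) = 0 := by
    intro t l
    have e1 : aeval (fun v => Polynomial.aeval t (c v)) (F l) =
        Polynomial.aeval t (aeval c (F l)) := by
      have := congrArg (fun g => g (F l)) (MvPolynomial.comp_aeval c
        (Polynomial.aeval t : Polynomial k →ₐ[k] k))
      exact this.symm
    rw [hcF, map_zero] at e1
    rw [← aeval_eq_eval]
    exact e1
  refine Relation.EqvGen.rel _ _ ⟨⟨h0, ?_, ?_⟩, ⟨hD, ?_, ?_⟩, c, ?_, hcF, ⟨1, one_ne_zero, ?_⟩,
    ⟨1, one_ne_zero, ?_⟩⟩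
  · intro l hl
    exact absurd hl (List.not_mem_nil)
  · intro l
    rw [← hc0]
    exact hev 0 l
  · intro l hl
    exact absurd hl (List.not_mem_nil)
  · intro l
    rw [← hc1]
    exact hev 1 l
  · intro l hl
    exact absurd hl (List.not_mem_nil)
  · rw [one_smul]
    exact hc0
  · rw [one_smul]
    exact hc1

theorem pf_COF (hCOR : T_COR.{u}) : T_COF.{u} := by
  intro k K _ _ _ _ e n s p d F x y hp hd hF hdn hx hy hFx hFy
  have hev : ∀ (z : Fin (n + 1) → K) l, eval (fun v => e (z v))
      (MvPolynomial.map (e : K →+* LaurentSeries k) (F l)) = e (eval z (F l)) := by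
    intro z l
    rw [eval_map]
    exact (MvPolynomial.eval₂_comp_left (e : K →+* LaurentSeries k) (RingHom.id K) z (F l)).symm
  have hne : ∀ z : Fin (n + 1) → K, z ≠ 0 → (fun v => e (z v)) ≠ 0 := by
    intro z hz h
    apply hz
    funext v
    have := congrFun h v
    exact (map_eq_zero_iff e e.injective).1 this
  obtain ⟨K', f1, a1, fd1, hdeg, hRE⟩ := hCOR k n s p d
    (fun l => MvPolynomial.map (e : K →+* LaurentSeries k) (F l)) (fun v => e (x v))
    (fun v => e (y v)) hp hd (fun l => (hF l).map _) hdn (hne x hx) (hne y hy)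
    (fun l => by rw [hev, hFx, map_zero]) (fun l => by rw [hev, hFy, map_zero])
  letI aK : Algebra K K' := ((algebraMap (LaurentSeries k) K').comp
    (e : K →+* LaurentSeries k)).toAlgebra
  have hmap : algebraMap K K' = (algebraMap (LaurentSeries k) K').comp
    (e : K →+* LaurentSeries k) := rfl
  have hfr : Module.finrank K K' = Module.finrank (LaurentSeries k) K' :=
    Algebra.finrank_eq_of_equiv_equiv e (RingEquiv.refl K') (by
      ext z
      rfl)
  have hfin : FiniteDimensional K K' := by
    apply FiniteDimensional.of_finrank_pos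
    rw [hfr]
    exact Module.finrank_pos
  refine ⟨K', f1, aK, hfin, by rw [hfr]; exact hdeg, ?_⟩
  have h1 : (fun l => MvPolynomial.map (algebraMap K K') (F l)) = fun l =>
      MvPolynomial.map (algebraMap (LaurentSeries k) K')
        (MvPolynomial.map (e : K →+* LaurentSeries k) (F l)) := by
    funext l
    rw [MvPolynomial.map_map, hmap]
  rw [h1]
  exact hRE

theorem pf_COR (hIT : T_IT.{u}) (hNVN : T_NVN) (hNUM : T_NUM) (hPHI : T_PHI.{u})
    (hCUR : T_CUR.{u}) (hGRD : T_GRD) : T_COR.{u} := by
  intro k _ _ _ n s p d F x y hp hd hF hdn hx hy hFx hFy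
  by_contra hcon
  obtain ⟨r, hr⟩ := hNUM p n s d hp hd hdn
  choose φ hφ1 hφ2 using fun l => hPHI (LaurentSeries k) n r (d l) x y (F l) (hF l)
  obtain ⟨c, hc⟩ := hGRD r n
  have hN : Npt k p (fun σ : (Σ l : Fin s, Fin (d l * (r + 1) - 1)) =>
      φ σ.1 ((σ.2 : ℕ) + 1)) (Bk r n) := by
    intro K' _ _ _ hdeg a ha hbl
    apply hcon
    refine ⟨K', inferInstance, inferInstance, inferInstance, hdeg, ?_⟩
    refine hCUR (LaurentSeries k) K' n r s d F x y φ hd hF hx hy hFx hFy hφ2 a ?_ hbl
    intro l m hm hm2
    have h1 := ha ⟨l, ⟨m - 1, by omega⟩⟩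
    have h2 : m - 1 + 1 = m := by omega
    change aeval a (φ l (m - 1 + 1)) = 0 at h1
    rwa [h2] at h1
  have h1 := hIT k (Vr r n) (Σ l : Fin s, Fin (d l * (r + 1) - 1)) (r + 1) (r + 1) (r + 1)
    (dv r n) (Lf r) (c • A2 r) (Bk r n) p (fun σ => φ σ.1 ((σ.2 : ℕ) + 1))
    (fun σ => fun j : Fin (r + 1) => (((σ.2 : ℕ) + 1 - d σ.1 * (j : ℕ) : ℕ) : ℤ)) hc hp
    (fun σ => hφ1 σ.1 ((σ.2 : ℕ) + 1)) hN
  exact hNVN p n s r d hp hd hr h1

end Pool.Agent.H50.IX
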