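import Pool.Agent.H15.IX.TD
import Pool.Agent.H50.IX.BET

/-!
# Prime ideals: row PRM
-/

set_option autoImplicit false

open Finset Pool.Agent.H15.IX
open MvPolynomial

namespace Pool.Agent.H50.IX

universe u

section basic
variable {V : Type} [Fintype V] {r q : ℕ} {K : Type u} [Field K] {deg : V → Fin r → ℤ}

/-- If all forms of degree `A` are in the ideal, the Hilbert function vanishes. -/
theorem hf_zero {P : Ideal (MvPolynomial V K)} {A : Fin r → ℤ}
    (h : ∀ f : MvPolynomial V K, IsWeightedHomogeneous deg f A → f ∈ P) : hf deg P A = 0 := by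
  unfold hf
  have h1 : P.restrictScalars K ⊓ weightedHomogeneousSubmodule K deg A =
      weightedHomogeneousSubmodule K deg A := by
    rw [inf_eq_right]
    intro f hf
    exact h f hf
  rw [h1, sub_self]

theorem mono_mem {P : Ideal (MvPolynomial V K)} {A : Fin r → ℤ}
    (h : ∀ s : V →₀ ℕ, Finsupp.weight deg s = A → (monomial s (1 : K)) ∈ P)
    (f : MvPolynomial V K) (hf : IsWeightedHomogeneous deg f A) : f ∈ P := by
  rw [f.as_sum]
  apply Ideal.sum_mem
  intro d hd
  have h1 : (monomial d (coeff d f) : MvPolynomial V K) = C (coeff d f) * monomial d (1 : K) := by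
    rw [C_mul_monomial, mul_one]
  rw [h1]
  exact Ideal.mul_mem_left _ _ (h d (hf (mem_support_iff.1 hd)))

/-- The length of a finite-dimensional space. -/
theorem lg_bot {F : Type u} [Field F] [Algebra K F] (Q : Submodule K F)
    [FiniteDimensional K Q] : lg Q (⊥ : Submodule K F) = (Module.finrank K Q : ℤ) := by
  unfold lg
  have h1 : (⊥ : Submodule K F).submoduleOf Q = ⊥ := by
    ext y
    rw [Submodule.mem_bot]
    change (y : F) ∈ (⊥ : Submodule K F) ↔ y = 0
    rw [Submodule.mem_bot]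
    exact ⟨fun h => Subtype.ext h, fun h => by rw [h]; rfl⟩
  rw [h1, (Submodule.quotEquivOfEqBot (⊥ : Submodule K Q) rfl).length_eq,
    Module.length_eq_finrank]
  rfl

theorem fl_bot {F : Type u} [Field F] [Algebra K F] (Q : Submodule K F)
    [FiniteDimensional K Q] :
    IsFiniteLength K (↥Q ⧸ (⊥ : Submodule K F).submoduleOf Q) := by
  rw [isFiniteLength_iff_isNoetherian_isArtinian]
  exact ⟨inferInstance, inferInstance⟩

theorem pow_le_field {F : Type u} [Field F] [Algebra K F] (E : IntermediateField K F)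
    (T : Submodule K F) (hT : ∀ y ∈ T, y ∈ E) (n : ℕ) : ∀ y ∈ T ^ n, y ∈ E := by
  have h : T ^ n ≤ Subalgebra.toSubmodule E.toSubalgebra := by
    induction n with
    | zero =>
      rw [pow_zero, Submodule.one_le]
      exact E.one_mem
    | succ n ih =>
      rw [pow_succ, Submodule.mul_le]
      intro a ha b hb
      exact E.mul_mem (ih ha) (hT b hb)
  exact fun y hy => h hy

theorem pow_ne_bot' {F : Type u} [Field F] [Algebra K F] (T : Submodule K F) (hT : T ≠ ⊥)
    (n : ℕ) : T ^ n ≠ ⊥ := by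
  obtain ⟨y, hy, hy0⟩ := Submodule.exists_mem_ne_zero_of_ne_bot hT
  intro h
  have h1 := Submodule.pow_mem_pow T hy n
  rw [h, Submodule.mem_bot] at h1
  exact pow_ne_zero n hy0 h1

end basic

/-- The point of a prime ideal. -/
theorem exists_point {V : Type} [Fintype V] {K : Type u} [Field K]
    (P : Ideal (MvPolynomial V K)) (hP : P.IsPrime) :
    ∃ (F : Type u) (_ : Field F) (_ : Algebra K F) (x : V → F), Ix K x = P := by
  haveI := hP
  haveI : IsDomain (MvPolynomial V K ⧸ P) := Ideal.Quotient.isDomain P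
  refine ⟨FractionRing (MvPolynomial V K ⧸ P), inferInstance, inferInstance,
    fun v => algebraMap (MvPolynomial V K ⧸ P) (FractionRing (MvPolynomial V K ⧸ P))
      (Ideal.Quotient.mk P (X v)), ?_⟩
  have h1 : (aeval (fun v => algebraMap (MvPolynomial V K ⧸ P)
      (FractionRing (MvPolynomial V K ⧸ P)) (Ideal.Quotient.mk P (X v))) :
      MvPolynomial V K →ₐ[K] FractionRing (MvPolynomial V K ⧸ P)) =
      (IsScalarTower.toAlgHom K (MvPolynomial V K ⧸ P)
        (FractionRing (MvPolynomial V K ⧸ P))).comp (Ideal.Quotient.mkₐ K P) := by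
    apply MvPolynomial.algHom_ext
    intro v
    rw [aeval_X]
    rfl
  unfold Ix
  rw [h1]
  ext f
  rw [RingHom.mem_ker]
  change algebraMap (MvPolynomial V K ⧸ P) (FractionRing (MvPolynomial V K ⧸ P))
    (Ideal.Quotient.mk P f) = 0 ↔ _
  rw [← map_zero (algebraMap (MvPolynomial V K ⧸ P) (FractionRing (MvPolynomial V K ⧸ P))),
    (IsFractionRing.injective (MvPolynomial V K ⧸ P)
      (FractionRing (MvPolynomial V K ⧸ P))).eq_iff, Ideal.Quotient.eq_zero_iff_mem]

theorem pf_PRM (_ : T_HFD.{u}) (hPER : T_PER.{u}) (hBET : T_BET.{u}) (hAR2 : T_AR2) (hELW : T_ELW.{u})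
    (hPTS : T_PTS.{u}) (hBHP : T_BHP.{u}) : T_PRM.{u} := by
  intro k _ _ _ V κ _ r q nb deg L A₀ Bl p φ M hGr hp hφ hN P hP hPp hφP hPev
  obtain ⟨F, fF, aF, x, hx⟩ := exists_point P hPp
  have hF := hGr.1
  have hL := hGr.2.1
  obtain ⟨b1, hb1⟩ := hGr.2.2.1
  by_cases hA : ∀ w ∈ Dg (LaurentSeries k) deg x A₀, w = 0
  · refine ⟨b1, fun A hA' => ?_⟩
    rw [hf_zero (A := A)]
    · exact dvd_zero _
    · apply mono_mem
      intro s hs
      obtain ⟨s', hs', hw⟩ := hb1 s (by
        intro i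
        rw [hs]
        exact hA' i)
      have h1 : (monomial s' (1 : LaurentSeries k) : MvPolynomial V (LaurentSeries k)) ∈ P := by
        rw [← hx]
        exact hA _ (mem_Dg hw)
      have h2 : (monomial s (1 : LaurentSeries k) : MvPolynomial V (LaurentSeries k)) =
          monomial (s - s') 1 * monomial s' 1 := by
        rw [monomial_mul, tsub_add_cancel_of_le hs', one_mul]
      rw [h2]
      exact P.mul_mem_left _ h1
  push Not at hA
  obtain ⟨w, hw, hw0⟩ := hA
  obtain ⟨g, hg, hgw⟩ := id hw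
  have hg' : IsWeightedHomogeneous deg g A₀ := hg
  have hgP : g ∉ P := by
    intro h
    rw [← hx] at h
    apply hw0
    rw [← hgw]
    exact h
  obtain ⟨b2, hb2⟩ := hPER V r q (LaurentSeries k) deg L p P g A₀ hF hP hPp hPev hg' hgP
  -- the index theorem
  have hφx : ∀ i, aeval x (φ i) = 0 := by
    intro i
    have h1 := hφP i
    rw [← hx] at h1
    exact h1
  have hpts := hPTS k V κ r q nb F deg L A₀ Bl p φ M x w hGr hp hφ hφx hw hw0 hN
  obtain ⟨W', hW'fg, hW'0, hW'E, hW'⟩ := hELW k F (Ez (LaurentSeries k) deg x) p hp.two_le hpts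
  set V1 : Submodule (LaurentSeries k) F :=
    Submodule.span (LaurentSeries k) {w⁻¹} * Dg (LaurentSeries k) deg x A₀ with hV1
  haveI hSf := S_fin (K := LaurentSeries k) hF A₀
  have hDfg : (Dg (LaurentSeries k) deg x A₀).FG := by
    apply Submodule.FG.map
    exact Module.Finite.iff_fg.1 hSf
  have hV1fg : V1.FG := (Submodule.fg_span_singleton _).mul hDfg
  have hV1E : ∀ y ∈ V1, y ∈ Ez (LaurentSeries k) deg x := by
    intro y hy
    have h1 : V1 ≤ Subalgebra.toSubmodule (Ez (LaurentSeries k) deg x).toSubalgebra := by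
      rw [hV1, span_mul_map]
      rintro _ ⟨z, hz, rfl⟩
      obtain ⟨g', hg1, rfl⟩ := hz
      apply IntermediateField.subset_adjoin
      refine ⟨A₀, g', g, hg1, hg', ?_, ?_⟩
      · change (aeval x : MvPolynomial V (LaurentSeries k) →ₐ[LaurentSeries k] F) g = w at hgw
        rw [hgw]
        exact hw0
      · change (aeval x : MvPolynomial V (LaurentSeries k) →ₐ[LaurentSeries k] F) g = w at hgw
        rw [hgw]
        change w⁻¹ * aeval x g' = aeval x g' / w
        rw [div_eq_mul_inv, mul_comm]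
    exact h1 hy
  have hfd : ∀ j J : ℕ, (V1 ^ j * W' ^ J).FG := fun j J => (hV1fg.pow j).mul (hW'fg.pow J)
  have hfin : ∀ j J : ℕ, FiniteDimensional (LaurentSeries k) ↥(V1 ^ j * W' ^ J) :=
    fun j J => Module.Finite.iff_fg.2 (hfd j J)
  have e1 : ∀ j J : ℕ, V1 * (V1 ^ j * W' ^ J) = V1 ^ (j + 1) * W' ^ J := by
    intro j J
    rw [pow_succ]
    ring
  have e2 : ∀ j J : ℕ, W' * (V1 ^ j * W' ^ J) = V1 ^ j * W' ^ (J + 1) := by
    intro j J
    rw [pow_succ]
    ring
  have hdif : ∃ n₀ r₀ : ℕ, Dif n₀ r₀ fun j J =>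
      (Module.finrank (LaurentSeries k) ↥(V1 ^ j * W' ^ J) : ℤ) := by
    obtain ⟨n₀, r₀, h⟩ := hBHP (LaurentSeries k) F V1 W' (fun j J => V1 ^ j * W' ^ J)
      (fun _ _ => ⊥) hV1fg hW'fg hfd (fun _ _ => bot_le)
      (fun j J => ⟨le_of_eq (e1 j J), le_of_eq (e2 j J)⟩)
      (by
        intro j J
        rw [Submodule.mul_bot, Submodule.mul_bot]
        exact ⟨le_rfl, le_rfl⟩)
      ⟨0, fun j J => ⟨fun _ => le_of_eq (e1 j J).symm, fun _ => le_of_eq (e2 j J).symm⟩⟩
      (by
        intro j J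
        haveI := hfin j J
        exact fl_bot _)
    refine ⟨n₀, r₀, ?_⟩
    have h2 : (fun j J => lg (V1 ^ j * W' ^ J) (⊥ : Submodule (LaurentSeries k) F)) =
        fun j J => (Module.finrank (LaurentSeries k) ↥(V1 ^ j * W' ^ J) : ℤ) := by
      funext j J
      haveI := hfin j J
      exact lg_bot _
    rw [← h2]
    exact h
  obtain ⟨n₀, r₀, hdif⟩ := hdif
  obtain ⟨j₀, hj₀⟩ := hAR2 p n₀ r₀ _ (fun j => hf deg P (j • A₀)) hp hdif
    (by
      intro j
      obtain ⟨J₀, hJ⟩ := hW' (V1 ^ j) (hV1fg.pow j) (pow_le_field _ V1 hV1E j)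
      refine ⟨J₀, fun J hJ' => ?_⟩
      have h1 := hJ J hJ'
      rw [mul_comm] at h1
      exact_mod_cast h1)
    (by
      intro J
      have h1 := hBET V r q nb (LaurentSeries k) F deg L A₀ Bl p x w (W' ^ J) hGr
        (by rw [hx]; exact hP) (by rw [hx]; exact hPev) hw hw0 (hW'fg.pow J)
        (pow_ne_bot' W' hW'0 J) (pow_le_field _ W' hW'E J)
      rw [hx] at h1
      exact h1)
  -- all deep degrees
  refine ⟨b2, fun A hA => ?_⟩
  by_cases hSA : ∀ f : MvPolynomial V (LaurentSeries k), IsWeightedHomogeneous deg f A → f ∈ P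
  · rw [hf_zero hSA]
    exact dvd_zero _
  push Not at hSA
  obtain ⟨g', hg1, hg2⟩ := hSA
  obtain ⟨b3, hb3⟩ := hPER V r q (LaurentSeries k) deg L p P g' A hF hP hPp hPev hg1 hg2
  have hdesc : ∀ j : ℕ, (p : ℤ) ∣ hf deg P (A + j • A₀) → (p : ℤ) ∣ hf deg P A := by
    intro j
    induction j with
    | zero =>
      intro h
      rwa [zero_smul, add_zero] at h
    | succ j ih =>
      intro h
      apply ih
      have h1 := hb2 (A + (j + 1) • A₀) (by
        intro i
        rw [map_add, map_nsmul, Pi.add_apply, Pi.smul_apply, nsmul_eq_mul]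
        have h2 := hA i
        have h3 : (0 : ℤ) ≤ ((j + 1 : ℕ) : ℤ) * L A₀ i :=
          mul_nonneg (by positivity) (hL i).le
        linarith)
      have h2 : A + (j + 1) • A₀ - A₀ = A + j • A₀ := by
        rw [add_smul, one_smul]
        abel
      change (p : ℤ) ∣ hf deg P (A + (j + 1) • A₀) - hf deg P (A + (j + 1) • A₀ - A₀) at h1
      rw [h2] at h1
      exact (dvd_sub_right h).1 h1
  have hlarge : ∃ j : ℕ, j₀ ≤ j ∧ ∀ i, b3 ≤ L (A + j • A₀) i := by
    refine ⟨j₀ + (|b3| + |b2|).toNat, by omega, ?_⟩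
    intro i
    rw [map_add, map_nsmul, Pi.add_apply, Pi.smul_apply, nsmul_eq_mul]
    have h2 := hA i
    have h3 := Int.self_le_toNat (|b3| + |b2|)
    have h4 : ((j₀ + (|b3| + |b2|).toNat : ℕ) : ℤ) * 1 ≤
        ((j₀ + (|b3| + |b2|).toNat : ℕ) : ℤ) * L A₀ i :=
      mul_le_mul_of_nonneg_left (by have := hL i; linarith) (by positivity)
    have h5 := le_abs_self b3
    have h6 := neg_abs_le b2
    push_cast at h4 ⊢
    have h7 : (0 : ℤ) ≤ j₀ := by positivity
    linarith
  obtain ⟨j, hj1, hj2⟩ := hlarge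
  apply hdesc j
  have h1 := hb3 (A + j • A₀) hj2
  change (p : ℤ) ∣ hf deg P (A + j • A₀) - hf deg P (A + j • A₀ - A) at h1
  rw [add_sub_cancel_left] at h1
  have h2 : (p : ℤ) ∣ hf deg P (j • A₀) := hj₀ j hj1
  exact (dvd_sub_left h2).1 h1

end Pool.Agent.H50.IX
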