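import Pool.Agent.H15.IX.TC

/-!
# Henselian subfields: rows TRC, HEN, UNI, TFR
-/

set_option autoImplicit false

open Finset Pool.Agent.H15.IX

namespace Pool.Agent.H50.IX

universe u

section basic
variable {Ω : Type u} [Field Ω] (O : ValuationSubring Ω)

/-- Nonzero constants have value one. -/
theorem val_const {k : Type u} [Field k] [Algebra k Ω] (hO : ∀ c : k, algebraMap k Ω c ∈ O)
    (c : k) (hc : c ≠ 0) : O.valuation (algebraMap k Ω c) = 1 := by
  apply le_antisymm ((O.valuation_le_one_iff _).2 (hO c))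
  have h1 : O.valuation (algebraMap k Ω c⁻¹) ≤ 1 := (O.valuation_le_one_iff _).2 (hO c⁻¹)
  have h2 : O.valuation (algebraMap k Ω c) * O.valuation (algebraMap k Ω c⁻¹) = 1 := by
    rw [← map_mul, ← map_mul, mul_inv_cancel₀ hc, map_one, map_one]
  calc (1 : O.ValueGroup) = O.valuation (algebraMap k Ω c) * O.valuation (algebraMap k Ω c⁻¹) :=
        h2.symm
    _ ≤ O.valuation (algebraMap k Ω c) * 1 := mul_le_mul_right h1 _
    _ = _ := mul_one _

theorem val_sum_le (s : Multiset Ω) (g : O.ValueGroup) (h : ∀ y ∈ s, O.valuation y ≤ g) :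
    O.valuation s.sum ≤ g := by
  induction s using Multiset.induction_on with
  | empty =>
    rw [Multiset.sum_zero, map_zero]
    exact zero_le'
  | cons a s ih =>
    rw [Multiset.sum_cons]
    exact Valuation.map_add_le _ (h a (Multiset.mem_cons_self a s))
      (ih fun y hy => h y (Multiset.mem_cons_of_mem hy))

theorem val_pow_one {v : O.ValueGroup} {m : ℕ} (hm : m ≠ 0) (h : v ^ m = 1) : v = 1 := by
  rcases lt_trichotomy v 1 with h1 | h1 | h1
  · exact absurd h (pow_lt_one₀ zero_le' h1 hm).ne
  · exact h1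
  · exact absurd h (one_lt_pow₀ h1 hm).ne'

/-- Roots of the minimal polynomial of a translate. -/
theorem Hns_sub {N : Subfield Ω} (hN : Hns O N) {θ y b : Ω} (hθ : IsIntegral N θ) (hb : b ∈ N)
    (hy : Polynomial.aeval y (minpoly N θ) = 0) :
    O.valuation (y - b) = O.valuation (θ - b) := by
  have h1 : algebraMap N Ω ⟨b, hb⟩ = b := rfl
  apply hN (θ - b) (y - b)
  · rw [← h1]
    exact hθ.sub isIntegral_algebraMap
  · have h2 := minpoly.sub_algebraMap (A := N) θ ⟨b, hb⟩
    rw [h1] at h2
    rw [h2, Polynomial.aeval_comp, map_add, Polynomial.aeval_X, Polynomial.aeval_C, h1,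
      sub_add_cancel]
    exact hy

end basic

theorem pf_TRC : T_TRC.{u} := by
  intro k Ω _ _ _ _ _ O N hkO hkN hN θ hθ
  have hmon := minpoly.monic hθ
  have hmon' := hmon.map (algebraMap N Ω)
  have hspl : ((minpoly N θ).map (algebraMap N Ω)).Splits := IsAlgClosed.splits _
  have hcard := hspl.natDegree_eq_card_roots
  rw [Polynomial.natDegree_map] at hcard
  have hsum := hspl.nextCoeff_eq_neg_sum_roots_of_monic hmon'
  have hn0 : (minpoly N θ).natDegree ≠ 0 := (minpoly.natDegree_pos hθ).ne'
  have hnk : ((minpoly N θ).natDegree : k) ≠ 0 := by exact_mod_cast hn0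
  have hnv : O.valuation ((minpoly N θ).natDegree : Ω) = 1 := by
    have := val_const O hkO _ hnk
    rwa [map_natCast] at this
  have hnΩ : ((minpoly N θ).natDegree : Ω) ≠ 0 := by
    intro h
    rw [h, map_zero] at hnv
    exact zero_ne_one hnv
  have hsN : ((minpoly N θ).map (algebraMap N Ω)).roots.sum ∈ N := by
    have h1 : ((minpoly N θ).map (algebraMap N Ω)).roots.sum =
        -((minpoly N θ).map (algebraMap N Ω)).nextCoeff := by rw [hsum, neg_neg]
    rw [h1, Polynomial.nextCoeff_map (algebraMap N Ω).injective]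
    exact N.neg_mem (minpoly N θ).nextCoeff.2
  refine ⟨((minpoly N θ).natDegree : Ω)⁻¹ * ((minpoly N θ).map (algebraMap N Ω)).roots.sum,
    N.mul_mem (N.inv_mem (natCast_mem N _)) hsN, ?_⟩
  intro b hb
  have h1 : ((minpoly N θ).natDegree : Ω) * (θ - ((minpoly N θ).natDegree : Ω)⁻¹ *
      ((minpoly N θ).map (algebraMap N Ω)).roots.sum) =
      (((minpoly N θ).map (algebraMap N Ω)).roots.map fun y => θ - y).sum := by
    rw [Multiset.sum_map_sub, Multiset.map_const', Multiset.sum_replicate, Multiset.map_id',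
      ← hcard, nsmul_eq_mul, mul_sub, ← mul_assoc, mul_inv_cancel₀ hnΩ, one_mul]
  have h2 : O.valuation (θ - ((minpoly N θ).natDegree : Ω)⁻¹ *
      ((minpoly N θ).map (algebraMap N Ω)).roots.sum) =
      O.valuation ((((minpoly N θ).map (algebraMap N Ω)).roots.map fun y => θ - y).sum) := by
    rw [← h1, map_mul, hnv, one_mul]
  rw [h2]
  apply val_sum_le
  intro z hz
  obtain ⟨y, hy, rfl⟩ := Multiset.mem_map.1 hz
  have hy0 : Polynomial.aeval y (minpoly N θ) = 0 := by
    rw [Polynomial.mem_roots hmon'.ne_zero, Polynomial.IsRoot.def, Polynomial.eval_map_algebraMap]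
      at hy
    exact hy
  have h3 := Hns_sub O hN hθ hb hy0
  have h4 : θ - y = (θ - b) - (y - b) := by ring
  rw [h4]
  exact Valuation.map_sub_le _ le_rfl h3.le

/-- An automorphism preserving the valuation ring does not decrease the values. -/
theorem hen_aux {Ω : Type u} [Field Ω] (O : ValuationSubring Ω) {M : Subfield Ω}
    (σ : Ω ≃ₐ[M] Ω) (hσ : ∀ x, x ∈ O ↔ σ x ∈ O) (x : Ω) (hx : IsIntegral M x) :
    O.valuation x ≤ O.valuation (σ x) := by
  by_contra hcon
  rw [not_le] at hcon
  have hx0 : x ≠ 0 := by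
    rintro rfl
    rw [map_zero] at hcon
    exact not_lt_zero hcon
  have hlt : ∀ z, O.valuation z < 1 → O.valuation (σ z) < 1 := by
    intro z hz
    by_contra h
    rw [not_lt] at h
    have hz0 : z ≠ 0 := by
      rintro rfl
      rw [map_zero, map_zero] at h
      exact not_lt_of_ge h (zero_lt_one)
    have h1 : O.valuation (σ z⁻¹) ≤ 1 := by
      rw [map_inv₀, map_inv₀]
      exact inv_le_one_of_one_le₀ h
    rw [O.valuation_le_one_iff, ← hσ, ← O.valuation_le_one_iff, map_inv₀] at h1
    have h2 : (1 : O.ValueGroup) < (O.valuation z)⁻¹ := by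
      rw [one_lt_inv₀]
      · exact hz
      · rw [zero_lt_iff]
        exact (Valuation.ne_zero_iff _).2 hz0
    exact not_lt_of_ge h1 h2
  have hu : O.valuation (σ x / x) < 1 := by
    rw [map_div₀]
    rw [div_lt_one₀]
    · exact hcon
    · rw [zero_lt_iff]
      exact (Valuation.ne_zero_iff _).2 hx0
  have hun : ∀ n : ℕ, O.valuation ((σ^[n]) (σ x / x)) < 1 := by
    intro n
    induction n with
    | zero => exact hu
    | succ n ih =>
      rw [Function.iterate_succ_apply']
      exact hlt _ ih
  have hne : ∀ n : ℕ, (σ^[n]) x ≠ 0 := by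
    intro n
    induction n with
    | zero => exact hx0
    | succ n ih =>
      rw [Function.iterate_succ_apply']
      exact (map_ne_zero_iff σ σ.injective).2 ih
  have hstep : ∀ n : ℕ, O.valuation ((σ^[n + 1]) x) < O.valuation ((σ^[n]) x) := by
    intro n
    have h1 : ∀ a b : Ω, (σ^[n]) (a * b) = (σ^[n]) a * (σ^[n]) b := by
      intro a b
      exact iterate_map_mul σ n a b
    have h2 : (σ^[n + 1]) x = (σ^[n]) (σ x / x) * (σ^[n]) x := by
      rw [← h1, div_mul_cancel₀ _ hx0, Function.iterate_succ_apply]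
    rw [h2, map_mul]
    calc _ < 1 * O.valuation ((σ^[n]) x) := by
          apply mul_lt_mul_of_pos_right (hun n)
          rw [zero_lt_iff]
          exact (Valuation.ne_zero_iff _).2 (hne n)
      _ = _ := one_mul _
  have hanti : StrictAnti fun n : ℕ => O.valuation ((σ^[n]) x) := strictAnti_nat_of_succ_lt hstep
  have hinj : Function.Injective fun n : ℕ => (σ^[n]) x := by
    intro i j hij
    exact hanti.injective (congrArg O.valuation hij)
  have hroot : ∀ n : ℕ, (σ^[n]) x ∈ (minpoly M x).rootSet Ω := by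
    intro n
    rw [Polynomial.mem_rootSet]
    refine ⟨minpoly.ne_zero hx, ?_⟩
    induction n with
    | zero => exact minpoly.aeval M x
    | succ n ih =>
      rw [Function.iterate_succ_apply']
      have h1 := congrArg σ ih
      rw [map_zero] at h1
      rw [← h1]
      exact Polynomial.aeval_algHom_apply σ.toAlgHom _ _
  have hfin : ((minpoly M x).rootSet Ω).Finite := (minpoly M x).rootSet_finite Ω
  exact Set.infinite_of_injective_forall_mem hinj hroot hfin

theorem pf_HEN : T_HEN.{u} := by
  intro Ω _ _ O M _ hσ x y hx hy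
  have hnorm : Normal M Ω := by
    refine normal_iff.2 fun z => ?_
    exact ⟨(Algebra.IsAlgebraic.isAlgebraic z).isIntegral, IsAlgClosed.splits _⟩
  have hconj : IsConjRoot M y x := by
    have h1 := minpoly.eq_of_irreducible_of_monic (minpoly.irreducible hx) hy (minpoly.monic hx)
    exact h1.symm
  obtain ⟨σ, hs⟩ := isConjRoot_iff_exists_algEquiv.1 hconj
  have hyi : IsIntegral M y := by
    rw [← hs]
    exact hx.map σ.toAlgHom
  rw [← hs]
  apply le_antisymm _ (hen_aux O σ (hσ σ) x hx)
  have h2 := hen_aux O σ.symm (hσ σ.symm) (σ x) (by rw [hs]; exact hyi)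
  rwa [AlgEquiv.symm_apply_apply] at h2

/-- Roots of unity are constants. -/
theorem root_const {k Ω : Type u} [Field k] [IsAlgClosed k] [Field Ω] [Algebra k Ω] (ζ : Ω)
    (m : ℕ) (hm : m ≠ 0) (h : ζ ^ m = 1) : ∃ c : k, algebraMap k Ω c = ζ := by
  have hint : IsIntegral k ζ := by
    refine ⟨Polynomial.X ^ m - 1, Polynomial.monic_X_pow_sub_C 1 hm, ?_⟩
    simp [h]
  have h1 := IsAlgClosed.degree_eq_one_of_irreducible k (minpoly.irreducible hint)
  exact minpoly.mem_range_of_degree_eq_one k ζ h1

theorem pf_UNI : T_UNI.{u} := by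
  intro k Ω _ _ _ _ _ _ O N hRs hkN hN x hx hx1 m hm
  have hm0 : m ≠ 0 := by omega
  have hvx : O.valuation x = 1 := by
    have h1 := Valuation.map_one_add_of_lt O.valuation hx1
    rwa [add_sub_cancel] at h1
  obtain ⟨w0, hw0⟩ := IsAlgClosed.exists_pow_nat_eq x (Nat.pos_of_ne_zero hm0)
  have hvw0 : O.valuation w0 = 1 := by
    apply val_pow_one O hm0
    rw [← map_pow, hw0, hvx]
  obtain ⟨c, hc⟩ := hRs.2 w0 ((O.valuation_le_one_iff _).1 hvw0.le)
  have hc0 : c ≠ 0 := by
    rintro rfl
    rw [map_zero, sub_zero, hvw0] at hc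
    exact lt_irrefl _ hc
  have hvc := val_const O hRs.1 c hc0
  have hcΩ : algebraMap k Ω c ≠ 0 := by
    intro h
    rw [h, map_zero] at hvc
    exact zero_ne_one hvc
  set w := w0 / algebraMap k Ω c with hw
  have hw1 : O.valuation (w - 1) < 1 := by
    have h1 : w - 1 = (w0 - algebraMap k Ω c) / algebraMap k Ω c := by
      rw [hw]
      field_simp
    rw [h1, map_div₀, hvc, div_one]
    exact hc
  have hpow : ∀ (z : Ω) (n : ℕ), O.valuation (z - 1) < 1 → O.valuation (z ^ n - 1) < 1 := by
    intro z n hz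
    have hvz : O.valuation z = 1 := by
      have h1 := Valuation.map_one_add_of_lt O.valuation hz
      rwa [add_sub_cancel] at h1
    induction n with
    | zero =>
      rw [pow_zero, sub_self, map_zero]
      exact zero_lt_one
    | succ n ih =>
      have h1 : z ^ (n + 1) - 1 = (z ^ n - 1) * z + (z - 1) := by ring
      rw [h1]
      apply Valuation.map_add_lt
      · rw [map_mul, hvz, mul_one]
        exact ih
      · exact hz
  have hcm : algebraMap k Ω c ^ m = 1 := by
    have h1 := hpow w m hw1
    have h2 : w ^ m = x / algebraMap k Ω c ^ m := by rw [hw, div_pow, hw0]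
    have h3 : O.valuation (x - algebraMap k Ω c ^ m) < 1 := by
      have h4 : x - algebraMap k Ω c ^ m = (w ^ m - 1) * algebraMap k Ω c ^ m := by
        rw [h2]
        field_simp
      rw [h4, map_mul, map_pow, hvc, one_pow, mul_one]
      exact h1
    by_contra hcon
    have h5 : (1 : k) - c ^ m ≠ 0 := by
      intro h
      apply hcon
      rw [← map_pow, ← sub_eq_zero.1 h, map_one]
    have h6 := val_const O hRs.1 _ h5
    rw [map_sub, map_one, map_pow] at h6
    have h7 : (1 : Ω) - algebraMap k Ω c ^ m =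
        (x - algebraMap k Ω c ^ m) - (x - 1) := by ring
    rw [h7] at h6
    have h8 : O.valuation ((x - algebraMap k Ω c ^ m) - (x - 1)) < 1 := by
      rw [sub_eq_add_neg]
      apply Valuation.map_add_lt _ h3
      rw [Valuation.map_neg]
      exact hx1
    exact absurd h6 h8.ne
  have hwm : w ^ m = x := by rw [hw, div_pow, hw0, hcm, div_one]
  refine ⟨w, ?_, hwm, hw1⟩
  have hw0' : w ≠ 0 := by
    intro h
    rw [h, zero_pow hm0] at hwm
    rw [← hwm, map_zero] at hvx
    exact zero_ne_one hvx
  have hint : IsIntegral N w := by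
    refine ⟨Polynomial.X ^ m - Polynomial.C ⟨x, hx⟩, Polynomial.monic_X_pow_sub_C _ hm0, ?_⟩
    rw [Polynomial.eval₂_sub, Polynomial.eval₂_pow, Polynomial.eval₂_X, Polynomial.eval₂_C, hwm]
    exact sub_self _
  have hroots : ∀ y : Ω, Polynomial.aeval y (minpoly N w) = 0 → y = w := by
    intro y hy
    have h1 : minpoly N w ∣ Polynomial.X ^ m - Polynomial.C ⟨x, hx⟩ := by
      apply minpoly.dvd
      rw [map_sub, map_pow, Polynomial.aeval_X, Polynomial.aeval_C, hwm]
      exact sub_self _
    have h2 : y ^ m = x := by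
      obtain ⟨q, hq⟩ := h1
      have h3 := congrArg (Polynomial.aeval y) hq
      rw [map_mul, hy, zero_mul, map_sub, map_pow, Polynomial.aeval_X, Polynomial.aeval_C] at h3
      exact sub_eq_zero.1 h3
    have h3 : (y / w) ^ m = 1 := by
      rw [div_pow, h2, hwm, div_self]
      rw [← hwm]
      exact pow_ne_zero _ hw0'
    obtain ⟨e, he⟩ := root_const (k := k) (y / w) m hm0 h3
    have h4 : O.valuation (y - 1) = O.valuation (w - 1) := Hns_sub O hN hint N.one_mem hy
    have h5 : O.valuation (y - w) < 1 := by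
      have h6 : y - w = (y - 1) - (w - 1) := by ring
      rw [h6, sub_eq_add_neg]
      apply Valuation.map_add_lt
      · rw [h4]
        exact hw1
      · rw [Valuation.map_neg]
        exact hw1
    have hvw : O.valuation w = 1 := by
      apply val_pow_one O hm0
      rw [← map_pow, hwm, hvx]
    by_contra hcon
    have h7 : e - 1 ≠ 0 := by
      intro h
      apply hcon
      rw [sub_eq_zero.1 h, map_one] at he
      rw [← div_mul_cancel₀ y hw0', ← he, one_mul]
    have h8 := val_const O hRs.1 _ h7
    rw [map_sub, map_one, he] at h8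
    have h9 : y - w = (y / w - 1) * w := by
      field_simp
    rw [h9, map_mul, h8, hvw, one_mul] at h5
    exact lt_irrefl _ h5
  have hcz : CharZero Ω := charZero_of_injective_algebraMap (algebraMap k Ω).injective
  have hczN : CharZero N := ⟨fun a b h => by
    have h1 := congrArg (algebraMap N Ω) h
    rw [map_natCast, map_natCast] at h1
    exact_mod_cast h1⟩
  have hsep : (minpoly N w).Separable := (minpoly.irreducible hint).separable
  have hnd : ((minpoly N w).map (algebraMap N Ω)).roots.Nodup := Polynomial.nodup_roots hsep.map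
  have hspl : ((minpoly N w).map (algebraMap N Ω)).Splits := IsAlgClosed.splits _
  have hcard := hspl.natDegree_eq_card_roots
  rw [Polynomial.natDegree_map] at hcard
  have hle : ((minpoly N w).map (algebraMap N Ω)).roots.card ≤ 1 := by
    have h1 : ((minpoly N w).map (algebraMap N Ω)).roots ≤ {w} := by
      rw [Multiset.le_iff_subset hnd]
      intro y hy
      rw [Multiset.mem_singleton]
      apply hroots
      rw [Polynomial.mem_roots ((minpoly.monic hint).map _).ne_zero, Polynomial.IsRoot.def,
        Polynomial.eval_map_algebraMap] at hy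
      exact hy
    exact (Multiset.card_le_card h1).trans_eq (Multiset.card_singleton w)
  have hpos := minpoly.natDegree_pos hint
  have h1 : (minpoly N w).natDegree = 1 := by omega
  rw [minpoly.natDegree_eq_one_iff] at h1
  obtain ⟨z, hz⟩ := h1
  rw [← hz]
  exact z.2

theorem pf_TFR (hUNI : T_UNI.{u}) : T_TFR.{u} := by
  intro k Ω _ _ _ _ _ _ O N M hRs hkN hNM hRac hM x b m hx hb hb0 hm hv
  have hm0 : m ≠ 0 := by omega
  have hvb : O.valuation b ≠ 0 := (Valuation.ne_zero_iff _).2 hb0
  have hx0 : x ≠ 0 := by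
    rintro rfl
    rw [map_zero, zero_pow hm0] at hv
    exact hvb hv.symm
  have hu : O.valuation (x ^ m / b) = 1 := by
    rw [map_div₀, map_pow, hv, div_self hvb]
  obtain ⟨c, hc⟩ := hRs.2 (x ^ m / b) ((O.valuation_le_one_iff _).1 hu.le)
  have hc0 : c ≠ 0 := by
    rintro rfl
    rw [map_zero, sub_zero, hu] at hc
    exact lt_irrefl _ hc
  have hvc := val_const O hRs.1 c hc0
  have hcΩ : algebraMap k Ω c ≠ 0 := by
    intro h
    rw [h, map_zero] at hvc
    exact zero_ne_one hvc
  have hcM : algebraMap k Ω c ∈ M := hNM (hkN c)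
  have huM : x ^ m / b / algebraMap k Ω c ∈ M :=
    M.div_mem (M.div_mem (M.pow_mem hx m) (hNM hb)) hcM
  have hu1 : O.valuation (x ^ m / b / algebraMap k Ω c - 1) < 1 := by
    have h1 : x ^ m / b / algebraMap k Ω c - 1 =
        (x ^ m / b - algebraMap k Ω c) / algebraMap k Ω c := by
      rw [sub_div, div_self hcΩ]
    rw [h1, map_div₀, hvc, div_one]
    exact hc
  obtain ⟨w, hwM, hwm, hw1⟩ := hUNI k Ω O M hRs (fun c => hNM (hkN c)) hM _ huM hu1 m hm
  have hvw : O.valuation w = 1 := by
    have h1 := Valuation.map_one_add_of_lt O.valuation hw1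
    rwa [add_sub_cancel] at h1
  have hw0 : w ≠ 0 := by
    rintro rfl
    rw [map_zero] at hvw
    exact zero_ne_one hvw
  have hpow : (x / w) ^ m = algebraMap k Ω c * b := by
    rw [div_pow, hwm]
    have := pow_ne_zero m hx0
    field_simp
  refine ⟨x / w, ?_, ?_⟩
  · apply hRac _ (M.div_mem hx hwM)
    have hcb : algebraMap k Ω c * b ∈ N := N.mul_mem (hkN c) hb
    refine ⟨Polynomial.X ^ m - Polynomial.C ⟨_, hcb⟩, Polynomial.monic_X_pow_sub_C _ hm0, ?_⟩
    rw [Polynomial.eval₂_sub, Polynomial.eval₂_pow, Polynomial.eval₂_X, Polynomial.eval₂_C, hpow]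
    exact sub_self _
  · rw [map_div₀, hvw, div_one]

end Pool.Agent.H50.IX
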