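import Pool.Agent.H15.IX.TF
import Pool.Agent.H50.IX.LNK

/-!
# Chains of curves: row CUR
-/

set_option autoImplicit false

open Finset Pool.Agent.H15.IX
open MvPolynomial Pool.Agent.H13.RE Pool.Agent.H17.IQ

namespace Pool.Agent.H50.IX

universe u

section poly
variable {K A : Type u} [Field K] [CommRing A] [Algebra K A] {N : ℕ}

/-- The top coefficient of a product. -/
theorem top_prod (e : ℕ) (p : Fin N → Polynomial A) (hp : ∀ v, (p v).natDegree ≤ e)
    (m : Fin N → ℕ) (S : Finset (Fin N)) :
    (∏ v ∈ S, p v ^ m v).natDegree ≤ (∑ v ∈ S, m v) * e ∧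
    (∏ v ∈ S, p v ^ m v).coeff ((∑ v ∈ S, m v) * e) = ∏ v ∈ S, (p v).coeff e ^ m v := by
  induction S using Finset.induction_on with
  | empty => simp
  | insert v S hv ih =>
    rw [Finset.prod_insert hv, Finset.sum_insert hv, Finset.prod_insert hv, add_mul]
    have h1 : (p v ^ m v).natDegree ≤ m v * e := Polynomial.natDegree_pow_le_of_le _ (hp v)
    refine ⟨Polynomial.natDegree_mul_le_of_le h1 ih.1, ?_⟩
    rw [Polynomial.coeff_mul_add_eq_of_natDegree_le h1 ih.1, ih.2,
      Polynomial.coeff_pow_of_natDegree_le (hp v)]

/-- The top coefficient of a form at polynomials. -/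
theorem top_coeff {F : MvPolynomial (Fin N) K} {d : ℕ} (hF : F.IsHomogeneous d) (e : ℕ)
    (p : Fin N → Polynomial A) (hp : ∀ v, (p v).natDegree ≤ e) :
    (aeval p F).natDegree ≤ d * e ∧
      (aeval p F).coeff (d * e) = aeval (fun v => (p v).coeff e) F := by
  rw [aeval_def, aeval_def, eval₂_eq', eval₂_eq']
  constructor
  · apply Polynomial.natDegree_sum_le_of_forall_le
    intro m hm
    have h1 := (top_prod e p hp m Finset.univ).1
    rw [hom_sum hF hm] at h1
    have h2 : algebraMap K (Polynomial A) (coeff m F) =
        Polynomial.C (algebraMap K A (coeff m F)) := rfl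
    rw [h2]
    exact (Polynomial.natDegree_C_mul_le _ _).trans h1
  · rw [Polynomial.finset_sum_coeff]
    refine Finset.sum_congr rfl fun m hm => ?_
    have h1 := (top_prod e p hp m Finset.univ).2
    rw [hom_sum hF hm] at h1
    have h2 : algebraMap K (Polynomial A) (coeff m F) =
        Polynomial.C (algebraMap K A (coeff m F)) := rfl
    rw [h2, Polynomial.coeff_C_mul, h1]

end poly

/-- Multiples are linked. -/
theorem RE_smul {k : Type u} [Field k] {N s : ℕ} {d : Fin s → ℕ}
    {F : Fin s → MvPolynomial (Fin N) k} (hF : ∀ l, (F l).IsHomogeneous (d l))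
    {P : Fin N → k} (hP : Pt [] F P) {c : k} (hc : c ≠ 0) : RE [] F P (c • P) := by
  have h1 : Pt [] F (c • P) := by
    refine ⟨smul_ne_zero hc hP.1, fun l hl => absurd hl (List.not_mem_nil), fun l => ?_⟩
    have h2 := aeval_mul_hom (hF l) c P
    rw [aeval_eq_eval, aeval_eq_eval, hP.2.2 l, mul_zero] at h2
    exact h2
  refine Relation.EqvGen.rel _ _ ⟨hP, h1, fun v => Polynomial.C (P v),
    fun l hl => absurd hl (List.not_mem_nil), ?_, ⟨1, one_ne_zero, ?_⟩,
    ⟨c⁻¹, inv_ne_zero hc, ?_⟩⟩
  · intro l
    have h2 : aeval (fun v => Polynomial.C (P v)) (F l) =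
        Polynomial.C (aeval P (F l)) := by
      have := congrArg (fun g => g (F l)) (MvPolynomial.comp_aeval P
        (Algebra.ofId k (Polynomial k)))
      exact this.symm
    rw [h2, aeval_eq_eval, hP.2.2 l, map_zero]
  · funext v
    simp
  · funext v
    simp only [Polynomial.eval_C, Pi.smul_apply, smul_eq_mul]
    rw [← mul_assoc, inv_mul_cancel₀ hc, one_mul]

section chain

variable {K K' : Type u} [Field K] [Field K'] [Algebra K K'] {n r : ℕ}

/-- The vectors `c_i` at the point `a`. -/
noncomputable def cv (x y : Fin (n + 1) → K) (a : Vr r n → K') (i : ℕ) (v : Fin (n + 1)) : K' :=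
  aeval a (cc r x y i v)

/-- The numbers `ε_q` at the point `a`. -/
noncomputable def ep (K : Type u) [Field K] [Algebra K K'] (a : Vr r n → K') (q : ℕ) : K' :=
  aeval a (ee K r n q)

/-- The products of the powers of the `ε`. -/
noncomputable def et (K : Type u) [Field K] [Algebra K K'] (a : Vr r n → K') (j j' m : ℕ) : K' :=
  ∏ q ∈ Ioo j j', ep K a q ^ (m - q)

theorem cv_zero (x y : Fin (n + 1) → K) (a : Vr r n → K') (v : Fin (n + 1)) :
    cv x y a 0 v = algebraMap K K' (x v) := by
  unfold cv cc
  rw [if_pos rfl, aeval_C]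

theorem cv_last (x y : Fin (n + 1) → K) (a : Vr r n → K') (v : Fin (n + 1)) :
    cv x y a (r + 1) v = algebraMap K K' (y v) * a (Sum.inr (Sum.inr ())) := by
  unfold cv cc
  rw [if_neg (Nat.succ_ne_zero r), dif_neg (by omega), if_pos rfl, map_mul, aeval_C, aeval_X]

theorem cv_mid (x y : Fin (n + 1) → K) (a : Vr r n → K') (i : ℕ) (h0 : i ≠ 0)
    (h : i - 1 < r) (v : Fin (n + 1)) :
    cv x y a i v = a (Sum.inl (⟨i - 1, h⟩, v)) := by
  unfold cv cc
  rw [if_neg h0, dif_pos h, aeval_X]

theorem ep_mid (a : Vr r n → K') (q : ℕ) (h0 : q ≠ 0) (h : q - 1 < r) :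
    ep K a q = a (Sum.inr (Sum.inl ⟨q - 1, h⟩)) := by
  unfold ep ee
  rw [if_neg h0, dif_pos h, aeval_X]

/-- The cut at the point `a`. -/
theorem cut_val (x y : Fin (n + 1) → K) (a : Vr r n → K') (j j' : ℕ) (hjj : j < j')
    (hj' : j' ≤ r + 1) (hj0 : j = 0 ∨ ep K a j = 0) (hj1 : j' = r + 1 ∨ ep K a j' = 0)
    (i : ℕ) (hi : i ≤ r + 1) (v : Fin (n + 1)) :
    aeval a (cut r x y j i v) =
      if j ≤ i ∧ i ≤ j' then et K a j j' i * cv x y a i v else 0 := by
  unfold cut
  rw [map_mul, map_mul, map_prod, map_prod]
  have e1 : ∀ S : Finset ℕ, ∀ f : ℕ → ℕ, ∏ q ∈ S, aeval a (ee K r n q ^ f q) =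
      ∏ q ∈ S, ep K a q ^ f q := by
    intro S f
    refine Finset.prod_congr rfl fun q _ => ?_
    rw [map_pow]
    rfl
  rw [e1, e1]
  change cv x y a i v * _ = _
  by_cases h1 : j ≤ i
  · by_cases h2 : i ≤ j'
    · rw [if_pos ⟨h1, h2⟩]
      have e2 : ∏ q ∈ Icc 1 j, ep K a q ^ (q - i) = 1 := by
        apply Finset.prod_eq_one
        intro q hq
        rw [Finset.mem_Icc] at hq
        have : q - i = 0 := by omega
        rw [this, pow_zero]
      have e3 : ∏ q ∈ Icc (j + 1) r, ep K a q ^ (i - q) = et K a j j' i := by
        unfold et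
        symm
        apply Finset.prod_subset
        · intro q hq
          rw [Finset.mem_Ioo] at hq
          rw [Finset.mem_Icc]
          omega
        · intro q hq hq'
          rw [Finset.mem_Icc] at hq
          rw [Finset.mem_Ioo] at hq'
          have : i - q = 0 := by omega
          rw [this, pow_zero]
      rw [e2, e3, one_mul, mul_comm]
    · rw [if_neg (fun h => h2 h.2)]
      have h3 : ep K a j' = 0 := by
        rcases hj1 with h | h
        · omega
        · exact h
      have e3 : ∏ q ∈ Icc (j + 1) r, ep K a q ^ (i - q) = 0 := by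
        apply Finset.prod_eq_zero (i := j')
        · rw [Finset.mem_Icc]
          omega
        · rw [h3, zero_pow]
          omega
      rw [e3, mul_zero, mul_zero]
  · rw [if_neg (fun h => h1 h.1)]
    have h3 : ep K a j = 0 := by
      rcases hj0 with h | h
      · omega
      · exact h
    have e2 : ∏ q ∈ Icc 1 j, ep K a q ^ (q - i) = 0 := by
      apply Finset.prod_eq_zero (i := j)
      · rw [Finset.mem_Icc]
        omega
      · rw [h3, zero_pow]
        omega
    rw [e2, zero_mul, mul_zero]

end chain

/-- One link of the chain. -/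
theorem link_step (hLNK : T_LNK.{u}) {K K' : Type u} [Field K] [Field K'] [Algebra K K']
    {n r s : ℕ} {d : Fin s → ℕ} {F : Fin s → MvPolynomial (Fin (n + 1)) K}
    {x y : Fin (n + 1) → K} {φ : Fin s → ℕ → MvPolynomial (Vr r n) K} (hd : ∀ l, 1 ≤ d l)
    (hF : ∀ l, (F l).IsHomogeneous (d l)) (hFx : ∀ l, eval x (F l) = 0)
    (hFy : ∀ l, eval y (F l) = 0) (hcut : ∀ l, CutId r (d l) x y (F l) (φ l))
    {a : Vr r n → K'} (ha : ∀ l m, 0 < m → m < d l * (r + 1) → aeval a (φ l m) = 0)
    {j j' : ℕ} (hjj : j < j') (hj' : j' ≤ r + 1) (hj0 : j = 0 ∨ ep K a j = 0)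
    (hj1 : j' = r + 1 ∨ ep K a j' = 0) (hbet : ∀ q, j < q → q < j' → ep K a q ≠ 0)
    (hcj : cv x y a j ≠ 0) (hcj' : cv x y a j' ≠ 0)
    (hPt : Pt [] (fun l => MvPolynomial.map (algebraMap K K') (F l)) (cv x y a j)) :
    RE [] (fun l => MvPolynomial.map (algebraMap K K') (F l)) (cv x y a j) (cv x y a j') := by
  have hF' : ∀ l, (MvPolynomial.map (algebraMap K K') (F l)).IsHomogeneous (d l) :=
    fun l => (hF l).map _
  -- the polynomials
  set Γ : Fin (n + 1) → Polynomial K' := fun v => ∑ i ∈ range (j' - j + 1),
    Polynomial.monomial i (et K a j j' (j + i) * cv x y a (j + i) v) with hΓ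
  have hM : ∀ v, Polynomial.map (aeval a : MvPolynomial (Vr r n) K →ₐ[K] K').toRingHom
      (Crv r x y j v) = Polynomial.X ^ j * Γ v := by
    intro v
    unfold Crv
    rw [Polynomial.map_sum, hΓ, Finset.mul_sum]
    have e1 : ∀ i ∈ range (r + 2), Polynomial.map
        (aeval a : MvPolynomial (Vr r n) K →ₐ[K] K').toRingHom
        (Polynomial.monomial i (cut r x y j i v)) =
        if j ≤ i ∧ i ≤ j' then Polynomial.monomial i (et K a j j' i * cv x y a i v) else 0 := by
      intro i hi
      rw [Finset.mem_range] at hi
      rw [Polynomial.map_monomial]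
      have e2 := cut_val x y a j j' hjj hj' hj0 hj1 i (by omega) v
      change Polynomial.monomial i (aeval a (cut r x y j i v)) = _
      rw [e2]
      split_ifs with h
      · rfl
      · rw [Polynomial.monomial_zero_right]
    rw [Finset.sum_congr rfl e1, ← Finset.sum_filter]
    symm
    apply Finset.sum_bij (fun i _ => j + i)
    · intro i hi
      rw [Finset.mem_range] at hi
      rw [Finset.mem_filter, Finset.mem_range]
      omega
    · intro i _ i' _ h
      omega
    · intro i hi
      rw [Finset.mem_filter, Finset.mem_range] at hi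
      refine ⟨i - j, ?_, ?_⟩
      · rw [Finset.mem_range]
        omega
      · omega
    · intro i _
      rw [Polynomial.X_pow_mul_monomial, add_comm i j]
  have hΓ0 : ∀ l, aeval Γ (F l) = 0 := by
    intro l
    have e1 : Polynomial.map (aeval a : MvPolynomial (Vr r n) K →ₐ[K] K').toRingHom
        (aeval (Crv r x y j) (F l)) = Polynomial.X ^ (j * d l) * aeval Γ (F l) := by
      have e2 : Polynomial.map (aeval a : MvPolynomial (Vr r n) K →ₐ[K] K').toRingHom
          (aeval (Crv r x y j) (F l)) = aeval (fun v => Polynomial.X ^ j * Γ v) (F l) := by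
        have := congrArg (fun g => g (F l)) (MvPolynomial.comp_aeval (Crv r x y j)
          (Polynomial.mapAlgHom (aeval a : MvPolynomial (Vr r n) K →ₐ[K] K')))
        rw [← funext hM]
        exact this
      rw [e2, aeval_mul_hom (hF l), ← pow_mul]
    have hdeg : ∀ v, (Polynomial.X ^ j * Γ v).natDegree ≤ j' := by
      intro v
      refine (Polynomial.natDegree_mul_le_of_le (Polynomial.natDegree_X_pow_le j)
        (n := j' - j) ?_).trans (by omega)
      apply Polynomial.natDegree_sum_le_of_forall_le
      intro i hi
      rw [Finset.mem_range] at hi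
      exact (Polynomial.natDegree_monomial_le _).trans (by omega)
    have e3 : aeval (fun v => Polynomial.X ^ j * Γ v) (F l) =
        Polynomial.X ^ (j * d l) * aeval Γ (F l) := by
      rw [aeval_mul_hom (hF l), ← pow_mul]
    have htop := top_coeff (hF l) j' (fun v => Polynomial.X ^ j * Γ v) hdeg
    rw [e3] at htop
    have hcoef : ∀ i v, i ≤ r + 1 → (Polynomial.X ^ j * Γ v).coeff i =
        if j ≤ i ∧ i ≤ j' then et K a j j' i * cv x y a i v else 0 := by
      intro i v hi
      rw [← hM v, Polynomial.coeff_map]
      unfold Crv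
      rw [Polynomial.finset_sum_coeff, Finset.sum_eq_single i]
      · rw [Polynomial.coeff_monomial_same]
        exact cut_val x y a j j' hjj hj' hj0 hj1 i hi v
      · intro b _ hb
        rw [Polynomial.coeff_monomial, if_neg hb]
      · intro h
        exact absurd (Finset.mem_range.2 (by omega)) h
    have hP : Polynomial.X ^ (j * d l) * aeval Γ (F l) = 0 := by
      ext m
      rw [Polynomial.coeff_zero]
      rcases Nat.eq_zero_or_pos m with hm | hm
      · -- the constant coefficient
        rw [hm, ← e3]
        have e4 : (aeval (fun v => Polynomial.X ^ j * Γ v) (F l)).coeff 0 =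
            aeval (fun v => (Polynomial.X ^ j * Γ v).coeff 0) (F l) := by
          have h5 : ∀ P : Polynomial K', P.coeff 0 =
              (Polynomial.aeval (0 : K') : Polynomial K' →ₐ[K'] K') P := by
            intro P
            rw [Polynomial.coeff_zero_eq_aeval_zero]
          have h6 := congrArg (fun g => g (F l)) (MvPolynomial.comp_aeval
            (fun v => Polynomial.X ^ j * Γ v)
            ((Polynomial.aeval (0 : K') : Polynomial K' →ₐ[K'] K').restrictScalars K))
          rw [h5]
          simp only [h5]
          exact h6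
        rw [e4]
        rcases Nat.eq_zero_or_pos j with hj | hj
        · have e5 : (fun v => (Polynomial.X ^ j * Γ v).coeff 0) =
              fun v => algebraMap K K' (x v) := by
            funext v
            rw [hcoef 0 v (by omega), if_pos ⟨by omega, by omega⟩]
            have e6 : et K a j j' 0 = 1 := by
              unfold et
              apply Finset.prod_eq_one
              intro q _
              rw [Nat.zero_sub, pow_zero]
            rw [e6, one_mul, cv_zero]
          rw [e5]
          have e7 : aeval (fun v => algebraMap K K' (x v)) (F l) =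
              algebraMap K K' (aeval x (F l)) := by
            have := congrArg (fun g => g (F l)) (MvPolynomial.comp_aeval x (Algebra.ofId K K'))
            exact this.symm
          rw [e7, aeval_eq_eval, hFx, map_zero]
        · have e5 : (fun v => (Polynomial.X ^ j * Γ v).coeff 0) = fun v => (0 : K') * 0 := by
            funext v
            rw [hcoef 0 v (by omega), if_neg (by omega), zero_mul]
          rw [e5, aeval_mul_hom (hF l), zero_pow (by have := hd l; omega), zero_mul]
      · by_cases hm2 : m < d l * (r + 1)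
        · rw [← e1, Polynomial.coeff_map, hcut l j (by omega) m]
          change aeval a (_ * _) = 0
          rw [map_mul, ha l m hm hm2, zero_mul]
        · rw [not_lt] at hm2
          have hle : d l * j' ≤ d l * (r + 1) := Nat.mul_le_mul_left _ hj'
          by_cases hm3 : d l * j' < m
          · exact Polynomial.coeff_eq_zero_of_natDegree_lt (htop.1.trans_lt hm3)
          · have hme : m = d l * j' := by omega
            have hjr : j' = r + 1 := by
              have h1 : d l * j' = d l * (r + 1) := by omega
              exact Nat.eq_of_mul_eq_mul_left (hd l) h1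
            rw [hme, htop.2]
            have e5 : (fun v => (Polynomial.X ^ j * Γ v).coeff j') = fun v =>
                (et K a j j' j' * a (Sum.inr (Sum.inr ()))) * algebraMap K K' (y v) := by
              funext v
              rw [hcoef j' v hj', if_pos ⟨hjj.le, le_rfl⟩]
              have e6 : cv x y a j' v = algebraMap K K' (y v) * a (Sum.inr (Sum.inr ())) := by
                rw [hjr]
                exact cv_last x y a v
              rw [e6]
              ring
            have e7 : aeval (fun v => algebraMap K K' (y v)) (F l) =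
                algebraMap K K' (aeval y (F l)) := by
              have := congrArg (fun g => g (F l)) (MvPolynomial.comp_aeval y
                (Algebra.ofId K K'))
              exact this.symm
            rw [e5, aeval_mul_hom (hF l), e7, aeval_eq_eval, hFy, map_zero, mul_zero]
    rcases mul_eq_zero.1 hP with h | h
    · exact absurd h (pow_ne_zero _ Polynomial.X_ne_zero)
    · exact h
  -- the link
  have heta0 : et K a j j' j = 1 := by
    unfold et
    apply Finset.prod_eq_one
    intro q hq
    rw [Finset.mem_Ioo] at hq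
    have : j - q = 0 := by omega
    rw [this, pow_zero]
  have heta1 : et K a j j' j' ≠ 0 := by
    unfold et
    rw [Finset.prod_ne_zero_iff]
    intro q hq
    rw [Finset.mem_Ioo] at hq
    exact pow_ne_zero _ (hbet q hq.1 hq.2)
  have hg0 : (fun v => et K a j j' (j + 0) * cv x y a (j + 0) v) = cv x y a j := by
    funext v
    rw [add_zero, heta0, one_mul]
  have hjD : j + (j' - j) = j' := by omega
  have hg1 : (fun v => et K a j j' (j + (j' - j)) * cv x y a (j + (j' - j)) v) =
      et K a j j' j' • cv x y a j' := by
    rw [hjD]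
    rfl
  have hL := hLNK K' (n + 1) s (j' - j) d
    (fun l => MvPolynomial.map (algebraMap K K') (F l))
    (fun i v => et K a j j' (j + i) * cv x y a (j + i) v) hF'
    (fun l => by
      rw [aeval_map_algebraMap]
      exact hΓ0 l)
    (by rw [hg0]; exact hcj) (by rw [hg1]; exact smul_ne_zero heta1 hcj')
  rw [hg0, hg1] at hL
  have hPt' := hL.pt_iff.1 hPt
  have hS := RE_smul hF' hPt' (inv_ne_zero heta1)
  rw [smul_smul, inv_mul_cancel₀ heta1, one_smul] at hS
  exact Relation.EqvGen.trans _ _ _ hL hS

theorem pf_CUR (hLNK : T_LNK.{u}) : T_CUR.{u} := by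
  classical
  intro K K' _ _ _ n r s d F x y φ hd hF hx hy hFx hFy hcut a ha hbl
  have hF' : ∀ l, (MvPolynomial.map (algebraMap K K') (F l)).IsHomogeneous (d l) :=
    fun l => (hF l).map _
  have hlam : a (Sum.inr (Sum.inr ())) ≠ 0 := by
    obtain ⟨v, hv, hav⟩ := hbl ⟨r, Nat.lt_succ_self r⟩
    unfold Bk at hv
    rw [Finset.mem_filter] at hv
    rcases v with z | i | u
    · have h1 := hv.2
      change (z.1 : ℕ) = r at h1
      have := z.1.2
      omega
    · have h1 := hv.2
      change (i : ℕ) = r at h1
      have := i.2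
      omega
    · exact hav
  have hmid : ∀ q, 1 ≤ q → q ≤ r → ep K a q = 0 → cv x y a q ≠ 0 := by
    intro q h1 h2 h3 h0
    obtain ⟨v, hv, hav⟩ := hbl ⟨q - 1, by omega⟩
    unfold Bk at hv
    rw [Finset.mem_filter] at hv
    have hq1 : q - 1 < r := by omega
    rcases v with z | i | u
    · have h4 := hv.2
      change (z.1 : ℕ) = q - 1 at h4
      have h5 := congrFun h0 z.2
      rw [cv_mid x y a q (by omega) hq1] at h5
      apply hav
      have h6 : z = (⟨q - 1, hq1⟩, z.2) := Prod.ext (Fin.ext h4) rfl
      rw [h6]
      exact h5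
    · have h4 := hv.2
      change (i : ℕ) = q - 1 at h4
      rw [ep_mid a q (by omega) hq1] at h3
      apply hav
      have h6 : i = ⟨q - 1, hq1⟩ := Fin.ext h4
      rw [h6]
      exact h3
    · have h4 := hv.2
      change r = q - 1 at h4
      omega
  have hinj : ∀ z : Fin (n + 1) → K, z ≠ 0 → (fun v => algebraMap K K' (z v)) ≠ 0 := by
    intro z hz h
    apply hz
    funext v
    have := congrFun h v
    exact (map_eq_zero_iff (algebraMap K K') (algebraMap K K').injective).1 this
  have hc0 : cv x y a 0 = fun v => algebraMap K K' (x v) := funext fun v => cv_zero x y a v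
  have hce : cv x y a (r + 1) = a (Sum.inr (Sum.inr ())) • fun v => algebraMap K K' (y v) := by
    funext v
    rw [cv_last]
    change _ = a (Sum.inr (Sum.inr ())) * algebraMap K K' (y v)
    rw [mul_comm]
  have hce0 : cv x y a (r + 1) ≠ 0 := by
    rw [hce]
    exact smul_ne_zero hlam (hinj y hy)
  have hPt0 : Pt [] (fun l => MvPolynomial.map (algebraMap K K') (F l)) (cv x y a 0) := by
    rw [hc0]
    refine ⟨hinj x hx, fun l hl => absurd hl (List.not_mem_nil), fun l => ?_⟩
    have e7 : aeval (fun v => algebraMap K K' (x v)) (F l) =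
        algebraMap K K' (aeval x (F l)) := by
      have := congrArg (fun g => g (F l)) (MvPolynomial.comp_aeval x (Algebra.ofId K K'))
      exact this.symm
    rw [← aeval_eq_eval, aeval_map_algebraMap, e7, aeval_eq_eval, hFx, map_zero]
  -- downward induction
  have key : ∀ t j, j + t = r + 1 → (j = 0 ∨ j = r + 1 ∨ ep K a j = 0) →
      Pt [] (fun l => MvPolynomial.map (algebraMap K K') (F l)) (cv x y a j) →
      RE [] (fun l => MvPolynomial.map (algebraMap K K') (F l)) (cv x y a j)
        (cv x y a (r + 1)) := by
    intro t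
    induction t using Nat.strong_induction_on with
    | _ t ih =>
      intro j hjt hj hPt
      rcases Nat.eq_zero_or_pos t with ht | ht
      · have : j = r + 1 := by omega
        rw [this]
        exact Relation.EqvGen.refl _
      have hex : ∃ m, j < m ∧ (m = r + 1 ∨ ep K a m = 0) := ⟨r + 1, by omega, Or.inl rfl⟩
      have hsp := Nat.find_spec hex
      have hmin := fun m (hm : m < Nat.find hex) => Nat.find_min hex hm
      have hle : Nat.find hex ≤ r + 1 := Nat.find_min' hex ⟨by omega, Or.inl rfl⟩
      have hcj : cv x y a j ≠ 0 := hPt.1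
      have hcj' : cv x y a (Nat.find hex) ≠ 0 := by
        by_cases h1 : Nat.find hex = r + 1
        · rw [h1]
          exact hce0
        · exact hmid _ (by omega) (by omega) (hsp.2.resolve_left h1)
      have hstep := link_step hLNK hd hF hFx hFy hcut ha hsp.1 hle
        (by
          rcases hj with h | h | h
          · exact Or.inl h
          · omega
          · exact Or.inr h) hsp.2
        (fun q h1 h2 h3 => hmin q h2 ⟨h1, Or.inr h3⟩) hcj hcj' hPt
      have hPt' := hstep.pt_iff.1 hPt
      have hrec := ih (r + 1 - Nat.find hex) (by have := hsp.1; omega) (Nat.find hex) (by omega)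
        (Or.inr hsp.2) hPt'
      exact Relation.EqvGen.trans _ _ _ hstep hrec
  have h1 := key (r + 1) 0 (by omega) (Or.inl rfl) hPt0
  have hPe := h1.pt_iff.1 hPt0
  rw [hc0, hce] at h1
  rw [hce] at hPe
  have h2 := RE_smul hF' hPe (inv_ne_zero hlam)
  rw [smul_smul, inv_mul_cancel₀ hlam, one_smul] at h2
  exact Relation.EqvGen.trans _ _ _ h1 h2

end Pool.Agent.H50.IX
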